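import Pool.Agent.LibXray.Shape

/-!
The concrete forcing term and its calculus.
-/

namespace Pool.Agent.LibXray

open Set MeasureTheory Filter Topology

/-- The forcing term for `p = 4/5`, `c = 1/100`, right end `r` of the second body. -/
noncomputable def chi (r e : ℝ) : ℝ :=
  Real.log (9/5 + e) - Real.log (1/5 - e) - Real.log (1 + r - e) + Real.log (r - 1 - e)

noncomputable def chi1 (r e : ℝ) : ℝ :=
  1 / (9/5 + e) + 1 / (1/5 - e) + 1 / (1 + r - e) - 1 / (r - 1 - e)

noncomputable def chi2 (r e : ℝ) : ℝ :=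
  -(1 / (9/5 + e) ^ 2) + 1 / (1/5 - e) ^ 2 + 1 / (1 + r - e) ^ 2 - 1 / (r - 1 - e) ^ 2

/-- Range of admissible `r`. -/
def Rg (r : ℝ) : Prop := 1/100 + 100/81 ≤ r ∧ r ≤ 5/4

variable {r e : ℝ}

lemma chi_hasDeriv (hr : Rg r) (he : e ∈ Icc (0:ℝ) (1/100)) : HasDerivAt (chi r) (chi1 r e) e := by
  obtain ⟨h1, h2⟩ := hr
  have p1 : 9/5 + e ≠ 0 := by have := he.1; positivity
  have p2 : 1/5 - e ≠ 0 := by have := he.2; linarith
  have p3 : 1 + r - e ≠ 0 := by have := he.2; linarith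
  have p4 : r - 1 - e ≠ 0 := by have := he.2; linarith
  have d1 : HasDerivAt (fun e : ℝ => 9/5 + e) 1 e := (hasDerivAt_id e).const_add _
  have d2 : HasDerivAt (fun e : ℝ => 1/5 - e) (-1) e := (hasDerivAt_id e).const_sub _
  have d3 : HasDerivAt (fun e : ℝ => 1 + r - e) (-1) e := (hasDerivAt_id e).const_sub _
  have d4 : HasDerivAt (fun e : ℝ => r - 1 - e) (-1) e := (hasDerivAt_id e).const_sub _
  have := (((d1.log p1).sub (d2.log p2)).sub (d3.log p3)).add (d4.log p4)
  refine HasDerivAt.congr_deriv (f := chi r) this ?_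
  unfold chi1; ring

lemma chi1_hasDeriv (hr : Rg r) (he : e ∈ Icc (0:ℝ) (1/100)) :
    HasDerivAt (chi1 r) (chi2 r e) e := by
  obtain ⟨h1, h2⟩ := hr
  have p1 : 9/5 + e ≠ 0 := by have := he.1; positivity
  have p2 : 1/5 - e ≠ 0 := by have := he.2; linarith
  have p3 : 1 + r - e ≠ 0 := by have := he.2; linarith
  have p4 : r - 1 - e ≠ 0 := by have := he.2; linarith
  have d1 : HasDerivAt (fun e : ℝ => 9/5 + e) 1 e := (hasDerivAt_id e).const_add _
  have d2 : HasDerivAt (fun e : ℝ => 1/5 - e) (-1) e := (hasDerivAt_id e).const_sub _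
  have d3 : HasDerivAt (fun e : ℝ => 1 + r - e) (-1) e := (hasDerivAt_id e).const_sub _
  have d4 : HasDerivAt (fun e : ℝ => r - 1 - e) (-1) e := (hasDerivAt_id e).const_sub _
  have hf : chi1 r = fun e => (9/5 + e)⁻¹ + (1/5 - e)⁻¹ + (1 + r - e)⁻¹ - (r - 1 - e)⁻¹ := by
    ext x; simp [chi1, one_div]
  rw [hf]
  refine ((((d1.fun_inv p1).fun_add (d2.fun_inv p2)).fun_add (d3.fun_inv p3)).fun_sub
    (d4.fun_inv p4)).congr_deriv ?_
  unfold chi2; ring

lemma inv_bounds (hr : Rg r) (he : e ∈ Icc (0:ℝ) (1/100)) :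
    (100/181 ≤ 1 / (9/5 + e) ∧ 1 / (9/5 + e) ≤ 5/9) ∧
    (5 ≤ 1 / (1/5 - e) ∧ 1 / (1/5 - e) ≤ 100/19) ∧
    (4/9 ≤ 1 / (1 + r - e) ∧ 1 / (1 + r - e) ≤ 81/181) ∧
    (4 ≤ 1 / (r - 1 - e) ∧ 1 / (r - 1 - e) ≤ 81/19) := by
  obtain ⟨h1, h2⟩ := hr
  obtain ⟨e1, e2⟩ := he
  have q1 : 0 < 9/5 + e := by linarith
  have q2 : 0 < 1/5 - e := by linarith
  have q3 : 0 < 1 + r - e := by linarith
  have q4 : 0 < r - 1 - e := by linarith
  refine ⟨⟨?_, ?_⟩, ⟨?_, ?_⟩, ⟨?_, ?_⟩, ?_, ?_⟩
  · rw [le_div_iff₀ q1]; linarith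
  · rw [div_le_iff₀ q1]; linarith
  · rw [le_div_iff₀ q2]; linarith
  · rw [div_le_iff₀ q2]; linarith
  · rw [le_div_iff₀ q3]; linarith
  · rw [div_le_iff₀ q3]; linarith
  · rw [le_div_iff₀ q4]; linarith
  · rw [div_le_iff₀ q4]; linarith

lemma chi1_bounds (hr : Rg r) (he : e ∈ Icc (0:ℝ) (1/100)) :
    17/10 ≤ chi1 r e ∧ chi1 r e ≤ 23/10 := by
  obtain ⟨⟨a1, a2⟩, ⟨b1, b2⟩, ⟨c1, c2⟩, d1, d2⟩ := inv_bounds hr he
  unfold chi1
  constructor <;> linarith

lemma chi2_lower (hr : Rg r) (he : e ∈ Icc (0:ℝ) (1/100)) : 67/10 ≤ chi2 r e := by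
  obtain ⟨⟨a1, a2⟩, ⟨b1, b2⟩, ⟨c1, c2⟩, d1, d2⟩ := inv_bounds hr he
  have e1 : chi2 r e = -((1 / (9/5 + e)) ^ 2) + (1 / (1/5 - e)) ^ 2 + (1 / (1 + r - e)) ^ 2
      - (1 / (r - 1 - e)) ^ 2 := by unfold chi2; simp only [one_div, inv_pow]
  rw [e1]
  have k1 : (1 / (9/5 + e)) ^ 2 ≤ (5/9)^2 := pow_le_pow_left₀ (by linarith) a2 2
  have k2 : (5:ℝ)^2 ≤ (1 / (1/5 - e)) ^ 2 := pow_le_pow_left₀ (by norm_num) b1 2
  have k3 : (4/9:ℝ)^2 ≤ (1 / (1 + r - e)) ^ 2 := pow_le_pow_left₀ (by norm_num) c1 2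
  have k4 : (1 / (r - 1 - e)) ^ 2 ≤ (81/19)^2 := pow_le_pow_left₀ (by linarith) d2 2
  norm_num at k1 k2 k3 k4 ⊢
  linarith

lemma chi_cont (hr : Rg r) : ContinuousOn (chi r) (Icc 0 (1/100)) :=
  fun _ he => (chi_hasDeriv hr he).continuousAt.continuousWithinAt

lemma chi_inc (hr : Rg r) : ∀ x ∈ Icc (0:ℝ) (1/100), ∀ y ∈ Icc (0:ℝ) (1/100), x ≤ y →
    17/10 * (y - x) ≤ chi r y - chi r x := by
  apply Convex.mul_sub_le_image_sub_of_le_deriv (convex_Icc _ _) (chi_cont hr)
  · intro x hx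
    exact (chi_hasDeriv hr (interior_subset hx)).differentiableAt.differentiableWithinAt
  · intro x hx
    rw [(chi_hasDeriv hr (interior_subset hx)).deriv]
    exact (chi1_bounds hr (interior_subset hx)).1

lemma chi_lip (hr : Rg r) : ∀ x ∈ Icc (0:ℝ) (1/100), ∀ y ∈ Icc (0:ℝ) (1/100), x ≤ y →
    chi r y - chi r x ≤ 23/10 * (y - x) := by
  apply Convex.image_sub_le_mul_sub_of_deriv_le (convex_Icc _ _) (chi_cont hr)
  · intro x hx
    exact (chi_hasDeriv hr (interior_subset hx)).differentiableAt.differentiableWithinAt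
  · intro x hx
    rw [(chi_hasDeriv hr (interior_subset hx)).deriv]
    exact (chi1_bounds hr (interior_subset hx)).2

lemma chi_conv (hr : Rg r) : ConvexOn ℝ (Icc (0:ℝ) (1/100)) (chi r) := by
  apply convexOn_of_hasDerivWithinAt2_nonneg (convex_Icc _ _) (chi_cont hr)
    (f' := chi1 r) (f'' := chi2 r)
  · intro x hx
    exact (chi_hasDeriv hr (interior_subset hx)).hasDerivWithinAt
  · intro x hx
    exact (chi1_hasDeriv hr (interior_subset hx)).hasDerivWithinAt
  · intro x hx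
    linarith [chi2_lower hr (interior_subset hx)]

/-- First concavity test. -/
lemma test1 (hr : Rg r) {σ : ℝ} (h1 : -(6/10) ≤ σ) (h2 : σ ≤ 0) :
    ConcaveOn ℝ (Icc 0 (1/100)) (fun e => (99/100 + r + e) * Real.exp (σ * e)) := by
  apply concaveOn_of_hasDerivWithinAt2_nonpos (convex_Icc _ _) (by fun_prop)
    (f' := fun e => (1 + σ * (99/100 + r + e)) * Real.exp (σ * e))
    (f'' := fun e => (2 * σ + σ ^ 2 * (99/100 + r + e)) * Real.exp (σ * e))
  · intro x hx
    apply HasDerivAt.hasDerivWithinAt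
    have d1 : HasDerivAt (fun e : ℝ => 99/100 + r + e) 1 x := (hasDerivAt_id x).const_add _
    have d2 : HasDerivAt (fun e : ℝ => Real.exp (σ * e)) (Real.exp (σ * x) * (σ * 1)) x :=
      ((hasDerivAt_id x).const_mul σ).exp
    refine (d1.fun_mul d2).congr_deriv ?_
    ring
  · intro x hx
    apply HasDerivAt.hasDerivWithinAt
    have d1 : HasDerivAt (fun e : ℝ => 1 + σ * (99/100 + r + e)) (σ * 1) x :=
      (((hasDerivAt_id x).const_add _).const_mul σ).const_add _
    have d2 : HasDerivAt (fun e : ℝ => Real.exp (σ * e)) (Real.exp (σ * x) * (σ * 1)) x :=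
      ((hasDerivAt_id x).const_mul σ).exp
    refine (d1.fun_mul d2).congr_deriv ?_
    ring
  · intro x hx
    have hx' := interior_subset hx
    obtain ⟨h3, h4⟩ := hr
    obtain ⟨x1, x2⟩ := hx'
    have : 2 * σ + σ ^ 2 * (99/100 + r + x) = σ * (2 + σ * (99/100 + r + x)) := by ring
    rw [this]
    have h5 : 0 ≤ 2 + σ * (99/100 + r + x) := by nlinarith
    exact mul_nonpos_of_nonpos_of_nonneg (mul_nonpos_of_nonpos_of_nonneg h2 h5)
      (Real.exp_pos _).le

/-- Second concavity test. -/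
lemma test2 (hr : Rg r) {σ : ℝ} (h1 : 0 ≤ σ) (h2 : σ ≤ 23/10) :
    ConcaveOn ℝ (Icc 0 (1/100))
      (fun e => ((99/100 + r + e) * Real.exp (-chi r e)) * Real.exp (σ * e)) := by
  have hfun : (fun e => ((99/100 + r + e) * Real.exp (-chi r e)) * Real.exp (σ * e))
      = fun e => (99/100 + r + e) * Real.exp (σ * e - chi r e) := by
    ext e
    rw [mul_assoc, ← Real.exp_add]
    congr 2; ring
  rw [hfun]
  apply concaveOn_of_hasDerivWithinAt2_nonpos (convex_Icc _ _) ?_
    (f' := fun e => (1 + (99/100 + r + e) * (σ - chi1 r e)) * Real.exp (σ * e - chi r e))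
    (f'' := fun e => (2 * (σ - chi1 r e) + (99/100 + r + e) * ((σ - chi1 r e)^2 - chi2 r e))
      * Real.exp (σ * e - chi r e))
  · intro x hx
    apply HasDerivAt.hasDerivWithinAt
    have hx' := interior_subset hx
    have d1 : HasDerivAt (fun e : ℝ => 99/100 + r + e) 1 x := (hasDerivAt_id x).const_add _
    have d2 : HasDerivAt (fun e : ℝ => Real.exp (σ * e - chi r e))
        (Real.exp (σ * x - chi r x) * (σ * 1 - chi1 r x)) x :=
      (((hasDerivAt_id x).const_mul σ).sub (chi_hasDeriv hr hx')).exp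
    refine (d1.fun_mul d2).congr_deriv ?_
    ring
  · intro x hx
    apply HasDerivAt.hasDerivWithinAt
    have hx' := interior_subset hx
    have d0 : HasDerivAt (fun e : ℝ => σ - chi1 r e) (-chi2 r x) x :=
      (chi1_hasDeriv hr hx').const_sub _
    have d1 : HasDerivAt (fun e : ℝ => 99/100 + r + e) 1 x := (hasDerivAt_id x).const_add _
    have d2 : HasDerivAt (fun e : ℝ => Real.exp (σ * e - chi r e))
        (Real.exp (σ * x - chi r x) * (σ * 1 - chi1 r x)) x :=
      (((hasDerivAt_id x).const_mul σ).sub (chi_hasDeriv hr hx')).exp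
    refine (((d1.fun_mul d0).const_add 1).fun_mul d2).congr_deriv ?_
    ring
  · intro x hx
    have hx' := interior_subset hx
    have c1 := chi1_bounds hr hx'
    have c2 := chi2_lower hr hx'
    obtain ⟨h3, h4⟩ := hr
    obtain ⟨x1, x2⟩ := hx'
    apply mul_nonpos_of_nonpos_of_nonneg _ (Real.exp_pos _).le
    set τ := σ - chi1 r x with hτ
    have t1 : -(23/10) ≤ τ := by linarith [c1.2]
    have t2 : τ ≤ 6/10 := by linarith [c1.1]
    have hA1 : 2 ≤ 99/100 + r + x := by linarith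
    have hsq : τ ^ 2 ≤ 529/100 := by nlinarith
    have hneg : τ ^ 2 - chi2 r x ≤ -(141/100) := by linarith
    have : (99/100 + r + x) * (τ ^ 2 - chi2 r x) ≤ 2 * (-(141/100)) := by nlinarith
    linarith
  · have := chi_cont hr
    fun_prop

lemma chi_top_nonneg (he : e ∈ Icc (0:ℝ) (1/100)) : 0 ≤ chi (5/4) e := by
  obtain ⟨e1, e2⟩ := he
  have q1 : 0 < 9/5 + e := by linarith
  have q2 : 0 < 1/5 - e := by linarith
  have q3 : 0 < 1 + 5/4 - e := by linarith
  have q4 : 0 < 5/4 - 1 - e := by linarith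
  have h : Real.log ((1/5 - e) * (1 + 5/4 - e)) ≤ Real.log ((9/5 + e) * (5/4 - 1 - e)) := by
    apply Real.log_le_log (mul_pos q2 q3)
    nlinarith
  rw [Real.log_mul q2.ne' q3.ne', Real.log_mul q1.ne' q4.ne'] at h
  unfold chi; linarith

lemma chi_bot_nonpos (he : e ∈ Icc (0:ℝ) (1/100)) : chi (1/100 + 100/81) e ≤ 0 := by
  obtain ⟨e1, e2⟩ := he
  have q1 : 0 < 9/5 + e := by linarith
  have q2 : 0 < 1/5 - e := by linarith
  have q3 : 0 < 1 + (1/100 + 100/81) - e := by linarith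
  have q4 : 0 < (1/100 + 100/81) - 1 - e := by linarith
  have h : Real.log ((9/5 + e) * ((1/100 + 100/81) - 1 - e))
      ≤ Real.log ((1/5 - e) * (1 + (1/100 + 100/81) - e)) := by
    apply Real.log_le_log (mul_pos q1 q4)
    nlinarith [mul_nonneg (sub_nonneg.mpr e2) (by linarith : (0:ℝ) ≤ 352/810 - e)]
  rw [Real.log_mul q2.ne' q3.ne', Real.log_mul q1.ne' q4.ne'] at h
  unfold chi; linarith

lemma log_lip {a b m : ℝ} (hm : 0 < m) (ha : m ≤ a) (hb : m ≤ b) :
    |Real.log a - Real.log b| ≤ |a - b| / m := by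
  have key : ∀ a b : ℝ, m ≤ a → m ≤ b → b ≤ a → |Real.log a - Real.log b| ≤ |a - b| / m := by
    intro a b ha hb hab
    have hb0 : 0 < b := hm.trans_le hb
    have ha0 : 0 < a := hm.trans_le ha
    have h1 : Real.log b ≤ Real.log a := Real.log_le_log hb0 hab
    rw [abs_of_nonneg (by linarith), abs_of_nonneg (by linarith), ← Real.log_div ha0.ne' hb0.ne']
    have h2 := Real.log_le_sub_one_of_pos (div_pos ha0 hb0)
    refine h2.trans ?_
    have : a / b - 1 = (a - b) / b := by field_simp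
    rw [this]
    exact div_le_div_of_nonneg_left (by linarith) hm hb
  rcases le_total b a with h | h
  · exact key a b ha hb h
  · have := key b a hb ha h
    rw [abs_sub_comm, abs_sub_comm a b]; exact this

lemma exists_r : ∃ r, Rg r ∧ ∫ e in (0:ℝ)..(1/100), chi r e = 0 := by
  set J : ℝ → ℝ := fun r => ∫ e in (0:ℝ)..(1/100), chi r e with hJ
  have hint : ∀ r, Rg r → IntervalIntegrable (chi r) volume 0 (1/100) := by
    intro r hr
    apply ContinuousOn.intervalIntegrable
    rw [uIcc_of_le (by norm_num)]; exact chi_cont hr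
  have hlip : ∀ r, Rg r → ∀ r', Rg r' → |J r - J r'| ≤ 1 * |r - r'| := by
    intro r hr r' hr'
    rw [hJ]
    simp only
    rw [← intervalIntegral.integral_sub (hint r hr) (hint r' hr')]
    have := intervalIntegral.norm_integral_le_of_norm_le_const (a := 0) (b := 1/100)
      (C := 10 * |r - r'|) (f := fun e => chi r e - chi r' e) (by
        intro e he
        rw [uIoc_of_le (by norm_num)] at he
        have e1 : 0 ≤ e := he.1.le
        have e2 := he.2
        obtain ⟨h1, h2⟩ := hr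
        obtain ⟨h3, h4⟩ := hr'
        have l1 := log_lip (m := 1) (a := 1 + r - e) (b := 1 + r' - e) one_pos
          (by linarith) (by linarith)
        have l2 := log_lip (m := 19/81) (a := r - 1 - e) (b := r' - 1 - e) (by norm_num)
          (by linarith) (by linarith)
        have s1 : 1 + r - e - (1 + r' - e) = r - r' := by ring
        have s2 : r - 1 - e - (r' - 1 - e) = r - r' := by ring
        rw [s1] at l1
        rw [s2] at l2
        have n := abs_nonneg (r - r')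
        rw [Real.norm_eq_abs]
        have e3 : chi r e - chi r' e = -(Real.log (1 + r - e) - Real.log (1 + r' - e))
          + (Real.log (r - 1 - e) - Real.log (r' - 1 - e)) := by unfold chi; ring
        rw [e3]
        refine (abs_add_le _ _).trans ?_
        rw [abs_neg]
        have l2' : |r - r'| / (19/81) ≤ 9 * |r - r'| := by
          rw [div_le_iff₀ (by norm_num)]; nlinarith
        rw [div_one] at l1
        linarith)
    rw [Real.norm_eq_abs] at this
    refine this.trans ?_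
    have n := abs_nonneg (r - r')
    rw [sub_zero, abs_of_pos (by norm_num : (0:ℝ) < 1/100)]
    linarith
  have hcont : ContinuousOn J (Icc (1/100 + 100/81) (5/4)) := by
    have : LipschitzOnWith (Real.toNNReal 1) J (Icc (1/100 + 100/81) (5/4)) := by
      apply LipschitzOnWith.of_dist_le_mul
      intro x hx y hy
      rw [Real.dist_eq, Real.dist_eq]
      simpa using hlip x hx y hy
    exact this.continuousOn
  have hle : (1/100 + 100/81 : ℝ) ≤ 5/4 := by norm_num
  have h0 : J (1/100 + 100/81) ≤ 0 := by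
    have := intervalIntegral.integral_mono_on (by norm_num : (0:ℝ) ≤ 1/100)
      (hint (1/100 + 100/81) ⟨le_rfl, hle⟩) (by simp : IntervalIntegrable (fun _ => (0:ℝ)) volume 0 (1/100))
      (fun e he => chi_bot_nonpos he)
    rw [intervalIntegral.integral_zero] at this
    exact this
  have h1 : 0 ≤ J (5/4) := by
    have := intervalIntegral.integral_mono_on (by norm_num : (0:ℝ) ≤ 1/100)
      (by simp : IntervalIntegrable (fun _ => (0:ℝ)) volume 0 (1/100))
      (hint (5/4) ⟨hle, le_rfl⟩) (fun e he => chi_top_nonneg he)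
    rw [intervalIntegral.integral_zero] at this
    exact this
  obtain ⟨r, hr, hr0⟩ := intermediate_value_Icc hle hcont (⟨h0, h1⟩ : (0:ℝ) ∈ Icc _ _)
  exact ⟨r, hr, hr0⟩

/-- The forcing term satisfies all requirements. -/
lemma chi_Forc (hr : Rg r) (h0 : ∫ e in (0:ℝ)..(1/100), chi r e = 0) :
    Forc (1/100) (17/10) (23/10) (chi r) where
  hc := by norm_num
  hs := by norm_num
  inc := chi_inc hr
  lip := chi_lip hr
  conv := chi_conv hr
  int0 := h0

end Pool.Agent.LibXray
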