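import Mathlib

/-!
Chord functions (point x-rays) of planar convex bodies.
-/

namespace Pool.Agent.LibXray

open MeasureTheory

/-- The Euclidean plane. -/
abbrev Plane := EuclideanSpace ℝ (Fin 2)

/-- Chord function of `K` at `x`: the length of the intersection of `K` with the line through `x`
that makes angle `θ` with the first coordinate axis. The line is parametrised by arc length,
`t ↦ x + t (cos θ, sin θ)`, and the length is the Lebesgue measure of the set of parameters
(`0` if the intersection is empty). -/
noncomputable def chord (K : Set Plane) (x : Plane) (θ : ℝ) : ℝ :=
  (volume {t : ℝ | x + t • !₂[Real.cos θ, Real.sin θ] ∈ K}).toReal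

/-- `K` is a convex body (compact and convex) which is admissible for `(x₁, x₂)`: neither point
lies in `K`, and the line through them meets the interior of `K`. -/
structure Admissible (x₁ x₂ : Plane) (K : Set Plane) : Prop where
  compact : IsCompact K
  convex : Convex ℝ K
  notMem₁ : x₁ ∉ K
  notMem₂ : x₂ ∉ K
  meets : ((line[ℝ, x₁, x₂] : Set Plane) ∩ interior K).Nonempty

end Pool.Agent.LibXray
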