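import Pool.Agent.LibXray.Rearr

/-!
A nonexpansive map on concave functions of mean zero and its fixed point.
-/

namespace Pool.Agent.LibXray

open Set MeasureTheory Filter Topology

/-- Hypotheses on the forcing term `χ`. -/
structure Forc (c s₀ S : ℝ) (χ : ℝ → ℝ) : Prop where
  hc : 0 < c
  hs : 0 < s₀
  inc : ∀ x ∈ Icc 0 c, ∀ y ∈ Icc 0 c, x ≤ y → s₀ * (y - x) ≤ χ y - χ x
  lip : ∀ x ∈ Icc 0 c, ∀ y ∈ Icc 0 c, x ≤ y → χ y - χ x ≤ S * (y - x)
  conv : ConvexOn ℝ (Icc 0 c) χ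
  int0 : ∫ e in (0:ℝ)..c, χ e = 0

/-- Nonincreasing, concave, `S`-Lipschitz functions on `[0, c]` of mean zero. -/
structure Cls (c S : ℝ) (F : ℝ → ℝ) : Prop where
  anti : AntitoneOn F (Icc 0 c)
  conc : ConcaveOn ℝ (Icc 0 c) F
  lip : ∀ x ∈ Icc 0 c, ∀ y ∈ Icc 0 c, |F x - F y| ≤ S * |x - y|
  int0 : ∫ e in (0:ℝ)..c, F e = 0

/-- The map whose fixed point is wanted. -/
noncomputable def Tm (c : ℝ) (χ F : ℝ → ℝ) : ℝ → ℝ := Rr c (fun e => F (c - e) - χ e)

variable {c s₀ S : ℝ} {χ F : ℝ → ℝ}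

lemma Forc.s_le (hχ : Forc c s₀ S χ) : s₀ ≤ S := by
  have h0 : (0:ℝ) ∈ Icc 0 c := ⟨le_rfl, hχ.hc.le⟩
  have h1 : c ∈ Icc 0 c := ⟨hχ.hc.le, le_rfl⟩
  have a := hχ.inc 0 h0 c h1 hχ.hc.le
  have b := hχ.lip 0 h0 c h1 hχ.hc.le
  have := hχ.hc
  nlinarith

lemma Forc.lip' (hχ : Forc c s₀ S χ) :
    ∀ x ∈ Icc 0 c, ∀ y ∈ Icc 0 c, |χ x - χ y| ≤ S * |x - y| := by
  have key : ∀ x ∈ Icc 0 c, ∀ y ∈ Icc 0 c, x ≤ y → |χ x - χ y| ≤ S * |x - y| := by
    intro x hx y hy hxy
    have a := hχ.inc x hx y hy hxy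
    have b := hχ.lip x hx y hy hxy
    have h1 : 0 ≤ s₀ * (y - x) := mul_nonneg hχ.hs.le (by linarith)
    rw [abs_of_nonpos (by linarith : χ x - χ y ≤ 0), abs_of_nonpos (by linarith : x - y ≤ 0)]
    linarith
  intro x hx y hy
  rcases le_total x y with h | h
  · exact key x hx y hy h
  · have := key y hy x hx h
    rw [abs_sub_comm, abs_sub_comm x y]; exact this

lemma refl_mem {c e : ℝ} (he : e ∈ Icc 0 c) : c - e ∈ Icc 0 c :=
  ⟨by linarith [he.2], by linarith [he.1]⟩

lemma Cls.cont (hF : Cls c S F) : ContinuousOn F (Icc 0 c) := continuousOn_of_lip hF.lip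

lemma V_lip (hχ : Forc c s₀ S χ) (hF : Cls c S F) :
    ∀ x ∈ Icc 0 c, ∀ y ∈ Icc 0 c,
      |(F (c - x) - χ x) - (F (c - y) - χ y)| ≤ S * |x - y| := by
  have key : ∀ x ∈ Icc 0 c, ∀ y ∈ Icc 0 c, x ≤ y →
      |(F (c - x) - χ x) - (F (c - y) - χ y)| ≤ S * |x - y| := by
    intro x hx y hy hxy
    have a := hχ.inc x hx y hy hxy
    have b := hχ.lip x hx y hy hxy
    have h1 : 0 ≤ s₀ * (y - x) := mul_nonneg hχ.hs.le (by linarith)
    have d := hF.anti (refl_mem hy) (refl_mem hx) (by linarith)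
    have l := hF.lip _ (refl_mem hy) _ (refl_mem hx)
    rw [abs_of_nonneg (by linarith), abs_of_nonpos (by linarith : c - y - (c - x) ≤ 0)] at l
    rw [abs_of_nonpos (by linarith : x - y ≤ 0), abs_le]
    constructor <;> nlinarith
  intro x hx y hy
  rcases le_total x y with h | h
  · exact key x hx y hy h
  · have := key y hy x hx h
    rw [abs_sub_comm, abs_sub_comm x y]; exact this

lemma refl_concave (hF : ConcaveOn ℝ (Icc 0 c) F) :
    ConcaveOn ℝ (Icc 0 c) (fun e => F (c - e)) := by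
  refine ⟨convex_Icc 0 c, ?_⟩
  intro x hx y hy s t hs ht hst
  have := hF.2 (refl_mem hx) (refl_mem hy) hs ht hst
  simp only [smul_eq_mul] at this ⊢
  have e : s * (c - x) + t * (c - y) = c - (s * x + t * y) := by
    have : c = (s + t) * c := by rw [hst]; ring
    linear_combination -this
  rw [e] at this; exact this

lemma V_conc (hχ : Forc c s₀ S χ) (hF : Cls c S F) :
    ConcaveOn ℝ (Icc 0 c) (fun e => F (c - e) - χ e) :=
  (refl_concave hF.conc).sub hχ.conv

lemma V_cont (hχ : Forc c s₀ S χ) (hF : Cls c S F) :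
    ContinuousOn (fun e => F (c - e) - χ e) (Icc 0 c) :=
  continuousOn_of_lip (V_lip hχ hF)

lemma V_int (hχ : Forc c s₀ S χ) (hF : Cls c S F) :
    ∫ e in (0:ℝ)..c, (F (c - e) - χ e) = 0 := by
  have hχc : ContinuousOn χ (Icc 0 c) := continuousOn_of_lip hχ.lip'
  have hFc : ContinuousOn (fun e => F (c - e)) (Icc 0 c) := by
    apply hF.cont.comp (by fun_prop)
    intro e he; exact refl_mem he
  rw [← uIcc_of_le hχ.hc.le] at hχc hFc
  rw [intervalIntegral.integral_sub hFc.intervalIntegrable hχc.intervalIntegrable, hχ.int0,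
    intervalIntegral.integral_comp_sub_left (fun x => F x) c]
  simp [hF.int0]

lemma Tm_Cls (hχ : Forc c s₀ S χ) (hF : Cls c S F) : Cls c S (Tm c χ F) := by
  have h1 := V_cont hχ hF
  have h2 := V_conc hχ hF
  have h3 := V_lip hχ hF
  have h4 := Rr_lip h1 h2 h3
  refine ⟨Rr_antitone h1 h2, Rr_concave h1 h2, h4, ?_⟩
  rw [Tm, ← integral_eq_of_equi hχ.hc.le h1 (continuousOn_of_lip h4) (Rr_equi h1 h2)]
  exact V_int hχ hF

lemma Cls.smul (hF : Cls c S F) {t : ℝ} (ht : 0 ≤ t) (ht1 : t ≤ 1) :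
    Cls c S (fun e => t * F e) := by
  refine ⟨?_, ?_, ?_, ?_⟩
  · intro x hx y hy hxy
    exact mul_le_mul_of_nonneg_left (hF.anti hx hy hxy) ht
  · have := hF.conc.smul ht
    simpa [smul_eq_mul] using this
  · intro x hx y hy
    have h := hF.lip x hx y hy
    rw [← mul_sub, abs_mul, abs_of_nonneg ht]
    calc t * |F x - F y| ≤ 1 * |F x - F y| :=
          mul_le_mul_of_nonneg_right ht1 (abs_nonneg _)
      _ ≤ S * |x - y| := by rw [one_mul]; exact h
  · rw [intervalIntegral.integral_const_mul, hF.int0, mul_zero]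

lemma Cls.zero (hS : 0 ≤ S) : Cls c S (fun _ => 0) := by
  refine ⟨fun x _ y _ _ => le_rfl, concaveOn_const 0 (convex_Icc 0 c), ?_, by simp⟩
  intro x _ y _
  simpa using mul_nonneg hS (abs_nonneg _)

/-- Functions in the class are bounded by `S * c`. -/
lemma Cls.bdd (hc : 0 < c) (hS : 0 ≤ S) (hF : Cls c S F) :
    ∀ x ∈ Icc 0 c, |F x| ≤ S * c := by
  intro x hx
  have hI : IntervalIntegrable F volume 0 c := by
    apply ContinuousOn.intervalIntegrable
    rw [uIcc_of_le hc.le]; exact hF.cont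
  have h1 : ∀ y ∈ Icc 0 c, F x - S * c ≤ F y ∧ F y ≤ F x + S * c := by
    intro y hy
    have := hF.lip x hx y hy
    have h2 : |x - y| ≤ c := by
      rw [abs_le]; constructor <;> linarith [hx.1, hx.2, hy.1, hy.2]
    have h3 : |F x - F y| ≤ S * c := this.trans (mul_le_mul_of_nonneg_left h2 hS)
    rw [abs_le] at h3
    constructor <;> linarith [h3.1, h3.2]
  have a := intervalIntegral.integral_mono_on hc.le (f := fun _ => F x - S * c) (g := F)
    (by simp) hI (fun y hy => (h1 y hy).1)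
  have b := intervalIntegral.integral_mono_on hc.le (f := F) (g := fun _ => F x + S * c)
    hI (by simp) (fun y hy => (h1 y hy).2)
  rw [hF.int0] at a b
  simp only [intervalIntegral.integral_const, smul_eq_mul, sub_zero] at a b
  rw [abs_le]
  constructor
  · by_contra hh
    push Not at hh
    have : c * (F x + S * c) < 0 := mul_neg_of_pos_of_neg hc (by linarith)
    linarith
  · by_contra hh
    push Not at hh
    have : 0 < c * (F x - S * c) := mul_pos hc (by linarith)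
    linarith

lemma Tm_dist (hχ : Forc c s₀ S χ) {G : ℝ → ℝ} (hF : Cls c S F) (hG : Cls c S G) {ε : ℝ}
    (h : ∀ x ∈ Icc 0 c, |F x - G x| ≤ ε) : ∀ x ∈ Icc 0 c, |Tm c χ F x - Tm c χ G x| ≤ ε := by
  intro x hx
  have a := Rr_le_add (V_cont hχ hF) (V_cont hχ hG) (ε := ε)
    (fun e he => by
      have := (abs_le.mp (h _ (refl_mem he))).2
      linarith) hx
  have b := Rr_le_add (V_cont hχ hG) (V_cont hχ hF) (ε := ε)
    (fun e he => by
      have := (abs_le.mp (h _ (refl_mem he))).1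
      linarith) hx
  rw [abs_le]
  unfold Tm
  constructor <;> linarith

/-- Approximate fixed points. -/
lemma approx_fixed (hχ : Forc c s₀ S χ) {ε : ℝ} (hε : 0 < ε) :
    ∃ F, Cls c S F ∧ ∀ x ∈ Icc 0 c, |Tm c χ F x - F x| ≤ ε := by
  have hS : 0 ≤ S := hχ.hs.le.trans hχ.s_le
  have hSpos : 0 < S := hχ.hs.trans_le hχ.s_le
  set D := S * c with hD
  have hDpos : 0 < D := mul_pos hSpos hχ.hc
  -- choose t
  obtain ⟨t, ht0, ht1, htD⟩ : ∃ t : ℝ, 0 < t ∧ t < 1 ∧ t * D ≤ ε / 2 := by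
    refine ⟨min (1/2) (ε / (2 * D)), by positivity, ?_, ?_⟩
    · exact lt_of_le_of_lt (min_le_left _ _) (by norm_num)
    · calc min (1/2) (ε / (2 * D)) * D ≤ (ε / (2 * D)) * D :=
            mul_le_mul_of_nonneg_right (min_le_right _ _) hDpos.le
        _ = ε / 2 := by field_simp
  let Fs : ℕ → (ℝ → ℝ) := fun k => Nat.rec (fun _ => (0:ℝ)) (fun _ G => fun e => (1 - t) * Tm c χ G e) k
  have hFs0 : Fs 0 = fun _ => 0 := rfl
  have hFsS : ∀ k, Fs (k+1) = fun e => (1 - t) * Tm c χ (Fs k) e := fun k => rfl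
  have hcls : ∀ k, Cls c S (Fs k) := by
    intro k
    induction k with
    | zero => rw [hFs0]; exact Cls.zero hS
    | succ k ih =>
      rw [hFsS]
      exact (Tm_Cls hχ ih).smul (by linarith) (by linarith)
  have hdist : ∀ k, ∀ x ∈ Icc 0 c, |Fs (k+1) x - Fs k x| ≤ (1 - t)^k * D := by
    intro k
    induction k with
    | zero =>
      intro x hx
      have := (hcls 1).bdd hχ.hc hS x hx
      rw [hFs0]; simpa using this
    | succ k ih =>
      intro x hx
      have := Tm_dist hχ (hcls (k+1)) (hcls k) ih x hx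
      have e : Fs (k+1+1) x - Fs (k+1) x
          = (1 - t) * (Tm c χ (Fs (k+1)) x - Tm c χ (Fs k) x) := by
        rw [hFsS (k+1), hFsS k]; ring
      rw [e, abs_mul, abs_of_nonneg (by linarith : 0 ≤ 1 - t), pow_succ']
      calc (1 - t) * |Tm c χ (Fs (k+1)) x - Tm c χ (Fs k) x|
          ≤ (1 - t) * ((1 - t)^k * D) := mul_le_mul_of_nonneg_left this (by linarith)
        _ = (1 - t) * (1 - t)^k * D := by ring
  have hlim : Tendsto (fun k : ℕ => (1 - t)^k * D) atTop (𝓝 (0 * D)) :=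
    (tendsto_pow_atTop_nhds_zero_of_lt_one (by linarith) (by linarith)).mul_const D
  rw [zero_mul] at hlim
  obtain ⟨k, hk⟩ := (hlim.eventually (gt_mem_nhds (show (0:ℝ) < ε / 2 by linarith))).exists
  refine ⟨Fs k, hcls k, ?_⟩
  intro x hx
  have h1 := hdist k x hx
  have h2 := (Tm_Cls hχ (hcls k)).bdd hχ.hc hS x hx
  have e : Tm c χ (Fs k) x - Fs k x = (Fs (k+1) x - Fs k x) + t * Tm c χ (Fs k) x := by
    rw [hFsS k]; ring
  rw [e]
  calc |(Fs (k+1) x - Fs k x) + t * Tm c χ (Fs k) x|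
      ≤ |Fs (k+1) x - Fs k x| + |t * Tm c χ (Fs k) x| := abs_add_le _ _
    _ ≤ (1 - t)^k * D + t * D := by
        rw [abs_mul, abs_of_pos ht0]
        exact add_le_add h1 (mul_le_mul_of_nonneg_left h2 ht0.le)
    _ ≤ ε := by linarith

/-- A bounded real sequence has a limit along an ultrafilter. -/
lemma ultra_lim (U : Ultrafilter ℕ) {u : ℕ → ℝ} {M : ℝ} (h : ∀ n, |u n| ≤ M) :
    ∃ a, Tendsto u U (𝓝 a) := by
  have hK : IsCompact (Icc (-M) M) := isCompact_Icc
  have : (U.map u : Filter ℝ) ≤ 𝓟 (Icc (-M) M) := by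
    rw [le_principal_iff]
    exact Filter.mem_map.mpr (Filter.univ_mem' (fun n => abs_le.mp (h n)))
  obtain ⟨a, _, ha⟩ := isCompact_iff_ultrafilter_le_nhds.mp hK (U.map u) this
  exact ⟨a, ha⟩

/-- There is a concave nonincreasing `S`-Lipschitz fixed point. -/
theorem exists_fixed (hχ : Forc c s₀ S χ) :
    ∃ F, AntitoneOn F (Icc 0 c) ∧ ConcaveOn ℝ (Icc 0 c) F ∧
      (∀ x ∈ Icc 0 c, ∀ y ∈ Icc 0 c, |F x - F y| ≤ S * |x - y|) ∧
      ∀ x ∈ Icc 0 c, Rr c (fun e => F (c - e) - χ e) x = F x := by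
  have hS : 0 ≤ S := hχ.hs.le.trans hχ.s_le
  have hSpos : 0 < S := hχ.hs.trans_le hχ.s_le
  choose G hG hGd using fun n : ℕ => approx_fixed hχ (ε := 1 / ((n:ℝ) + 1)) (by positivity)
  let U : Ultrafilter ℕ := Filter.hyperfilter ℕ
  have hU : (U : Filter ℕ) ≤ atTop := Nat.hyperfilter_le_atTop
  -- extend by clamping
  have hlim : ∀ x, ∃ a, x ∈ Icc 0 c → Tendsto (fun n => G n x) U (𝓝 a) := by
    intro x
    by_cases hx : x ∈ Icc 0 c
    · obtain ⟨a, ha⟩ := ultra_lim U (u := fun n => G n x) (M := S * c)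
        (fun n => (hG n).bdd hχ.hc hS x hx)
      exact ⟨a, fun _ => ha⟩
    · exact ⟨0, fun h => absurd h hx⟩
  choose F hF using hlim
  have hanti : AntitoneOn F (Icc 0 c) := by
    intro x hx y hy hxy
    exact le_of_tendsto_of_tendsto' (hF y hy) (hF x hx) (fun n => (hG n).anti hx hy hxy)
  have hconc : ConcaveOn ℝ (Icc 0 c) F := by
    refine ⟨convex_Icc 0 c, ?_⟩
    intro x hx y hy s t hs ht hst
    have hm : s • x + t • y ∈ Icc 0 c := (convex_Icc 0 c) hx hy hs ht hst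
    have h1 := ((hF x hx).const_mul s).add ((hF y hy).const_mul t)
    exact le_of_tendsto_of_tendsto' h1 (hF _ hm) (fun n => (hG n).conc.2 hx hy hs ht hst)
  have hlip : ∀ x ∈ Icc 0 c, ∀ y ∈ Icc 0 c, |F x - F y| ≤ S * |x - y| := by
    intro x hx y hy
    exact le_of_tendsto' ((hF x hx).sub (hF y hy)).abs (fun n => (hG n).lip x hx y hy)
  refine ⟨F, hanti, hconc, hlip, ?_⟩
  -- uniform convergence along U
  have hunif : ∀ ε > 0, ∀ᶠ n in (U : Filter ℕ), ∀ x ∈ Icc 0 c, |G n x - F x| ≤ ε := by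
    intro ε hε
    obtain ⟨N, hN⟩ := exists_nat_gt (3 * S * c / ε)
    have hNpos : 0 < (N:ℝ) := by
      have : 0 < 3 * S * c / ε := by have := hχ.hc; positivity
      linarith
    have hgrid : ∀ᶠ n in (U : Filter ℕ), ∀ j ∈ Finset.range (N+1),
        |G n (c * j / N) - F (c * j / N)| < ε / 3 := by
      rw [Filter.eventually_all_finset]
      intro j hj
      have hm : c * (j:ℝ) / N ∈ Icc 0 c := by
        have hjN : (j:ℝ) ≤ N := by
          have := Finset.mem_range.mp hj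
          exact_mod_cast Nat.lt_succ_iff.mp this
        constructor
        · have := hχ.hc; positivity
        · rw [div_le_iff₀ hNpos]
          exact mul_le_mul_of_nonneg_left hjN hχ.hc.le
      have h1 := ((hF _ hm).sub_const (F (c * (j:ℝ) / N))).abs
      simp only [sub_self, abs_zero] at h1
      exact h1.eventually (gt_mem_nhds (by linarith))
    filter_upwards [hgrid] with n hn x hx
    -- nearest grid point below
    set j := ⌊x * N / c⌋₊ with hj
    have hxN : 0 ≤ x * N / c := div_nonneg (mul_nonneg hx.1 hNpos.le) hχ.hc.le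
    have hj1 : (j:ℝ) ≤ x * N / c := Nat.floor_le hxN
    have hj2 : x * N / c < j + 1 := Nat.lt_floor_add_one _
    have hjN : (j:ℝ) ≤ N := hj1.trans (by
      rw [div_le_iff₀ hχ.hc]; nlinarith [hx.2])
    have hjr : j ∈ Finset.range (N+1) := by
      rw [Finset.mem_range, Nat.lt_succ_iff]; exact_mod_cast hjN
    have hy1 : c * (j:ℝ) / N ≤ x := by
      rw [div_le_iff₀ hNpos]
      rw [le_div_iff₀ hχ.hc] at hj1; linarith
    have hy2 : x - c * (j:ℝ) / N ≤ c / N := by
      rw [div_lt_iff₀ hχ.hc] at hj2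
      have : x ≤ (c * j + c) / N := by
        rw [le_div_iff₀ hNpos]; nlinarith
      calc x - c * (j:ℝ) / N ≤ (c * j + c) / N - c * j / N := by linarith
        _ = c / N := by ring
    have hm : c * (j:ℝ) / N ∈ Icc 0 c :=
      ⟨by have := hχ.hc; positivity, hy1.trans hx.2⟩
    have hsmall : S * (c / N) ≤ ε / 3 := by
      have h1 : 3 * S * c < N * ε := by
        rw [div_lt_iff₀ hε] at hN; exact hN
      have : S * (c / N) = (S * c) / N := by ring
      rw [this, div_le_iff₀ hNpos]; linarith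
    have a1 := (hG n).lip x hx _ hm
    have a2 := hlip x hx _ hm
    have a3 := hn j hjr
    rw [abs_of_nonneg (by linarith : 0 ≤ x - c * (j:ℝ) / N)] at a1 a2
    have a1' : |G n x - G n (c * j / N)| ≤ ε / 3 :=
      a1.trans ((mul_le_mul_of_nonneg_left hy2 hS).trans hsmall)
    have a2' : |F x - F (c * j / N)| ≤ ε / 3 :=
      a2.trans ((mul_le_mul_of_nonneg_left hy2 hS).trans hsmall)
    rw [abs_le] at a1' a2' ⊢
    rw [abs_lt] at a3
    constructor <;> linarith [a1'.1, a1'.2, a2'.1, a2'.2, a3.1, a3.2]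
  intro x hx
  -- V for F
  have hVF : ContinuousOn (fun e => F (c - e) - χ e) (Icc 0 c) := by
    have h1 : ContinuousOn F (Icc 0 c) := continuousOn_of_lip hlip
    have h2 : ContinuousOn (fun e => F (c - e)) (Icc 0 c) := by
      apply h1.comp (by fun_prop)
      intro e he; exact refl_mem he
    exact h2.sub (continuousOn_of_lip hχ.lip')
  have hsq : ∀ ε > 0, |Rr c (fun e => F (c - e) - χ e) x - F x| ≤ ε := by
    intro ε hε
    have h1 := hunif (ε/3) (by linarith)
    have h2 : ∀ᶠ n : ℕ in (U : Filter ℕ), 1 / ((n:ℝ) + 1) < ε / 3 := by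
      apply hU
      exact (tendsto_one_div_add_atTop_nhds_zero_nat (𝕜 := ℝ)).eventually
        (gt_mem_nhds (by linarith))
    obtain ⟨n, hn1, hn2⟩ := (h1.and h2).exists
    have b1 := Rr_le_add (V_cont hχ (hG n)) hVF (ε := ε/3)
      (fun e he => by
        have := (abs_le.mp (hn1 _ (refl_mem he))).2
        linarith) hx
    have b2 := Rr_le_add hVF (V_cont hχ (hG n)) (ε := ε/3)
      (fun e he => by
        have := (abs_le.mp (hn1 _ (refl_mem he))).1
        linarith) hx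
    have b3 := hGd n x hx
    have b4 := hn1 x hx
    unfold Tm at b3
    rw [abs_le] at b3 b4 ⊢
    constructor <;> linarith [b3.1, b3.2, b4.1, b4.2]
  have : |Rr c (fun e => F (c - e) - χ e) x - F x| ≤ 0 := le_of_forall_pos_le_add
    (fun ε hε => by simpa using hsq ε hε)
  have := abs_nonpos_iff.mp this
  linarith

end Pool.Agent.LibXray
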