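import Pool.Agent.LibXray.Main

/-!
Transport to an arbitrary pair of distinct points by a similarity.
-/

namespace Pool.Agent.LibXray

open Set MeasureTheory Filter Topology

/-- The similarity taking `x₁ = (a₀, a₁)` to `(-1, 0)` with `x₂ - x₁ = 2 (C, S)`. -/
noncomputable def simInv (a₀ a₁ C S : ℝ) (w : Plane) : Plane :=
  !₂[(C * (w 0 - a₀) + S * (w 1 - a₁)) / (C ^ 2 + S ^ 2) - 1,
    (-S * (w 0 - a₀) + C * (w 1 - a₁)) / (C ^ 2 + S ^ 2)]

noncomputable def simFwd (a₀ a₁ C S : ℝ) (z : Plane) : Plane :=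
  !₂[a₀ + C * (z 0 + 1) - S * z 1, a₁ + S * (z 0 + 1) + C * z 1]

variable {a₀ a₁ C S : ℝ}

noncomputable def simHomeo (a₀ a₁ : ℝ) {C S : ℝ} (h : C ^ 2 + S ^ 2 ≠ 0) : Plane ≃ₜ Plane where
  toFun := simInv a₀ a₁ C S
  invFun := simFwd a₀ a₁ C S
  left_inv := by
    intro w
    ext i
    fin_cases i
    · simp [simInv, simFwd]; field_simp; ring
    · simp [simInv, simFwd]; field_simp; ring
  right_inv := by
    intro z
    ext i
    fin_cases i
    · simp [simInv, simFwd]; field_simp; ring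
    · simp [simInv, simFwd]; field_simp; ring
  continuous_toFun := by
    unfold simInv
    apply (PiLp.continuous_toLp 2 _).comp
    rw [continuous_pi_iff]
    intro i
    fin_cases i
    · simp; fun_prop
    · simp; fun_prop
  continuous_invFun := by
    unfold simFwd
    apply (PiLp.continuous_toLp 2 _).comp
    rw [continuous_pi_iff]
    intro i
    fin_cases i
    · simp; fun_prop
    · simp; fun_prop

lemma simInv_affine (z w : Plane) {s t : ℝ} (hst : s + t = 1) :
    simInv a₀ a₁ C S (s • z + t • w) = s • simInv a₀ a₁ C S z + t • simInv a₀ a₁ C S w := by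
  have ht : t = 1 - s := by linarith
  ext i
  fin_cases i
  · simp [simInv, ht]; ring
  · simp [simInv, ht]; ring

lemma chord_sim {ρ α : ℝ} (hρ : 0 < ρ) (hC : C = ρ * Real.cos α) (hS : S = ρ * Real.sin α)
    (K : Set Plane) (x : Plane) (θ : ℝ) :
    chord (simInv a₀ a₁ C S ⁻¹' K) x θ = ρ * chord K (simInv a₀ a₁ C S x) (θ - α) := by
  have hsq : C ^ 2 + S ^ 2 = ρ ^ 2 := by
    rw [hC, hS]
    have := Real.sin_sq_add_cos_sq α
    linear_combination ρ ^ 2 * this
  unfold chord
  have hset : {t : ℝ | x + t • !₂[Real.cos θ, Real.sin θ] ∈ simInv a₀ a₁ C S ⁻¹' K}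
      = {t : ℝ | t * ρ⁻¹ + 0 ∈ {t : ℝ | simInv a₀ a₁ C S x
          + t • !₂[Real.cos (θ - α), Real.sin (θ - α)] ∈ K}} := by
    ext t
    simp only [mem_ofPred_eq, mem_preimage, add_zero]
    have : simInv a₀ a₁ C S (x + t • !₂[Real.cos θ, Real.sin θ])
        = simInv a₀ a₁ C S x + (t * ρ⁻¹) • !₂[Real.cos (θ - α), Real.sin (θ - α)] := by
      ext i
      fin_cases i
      · simp only [simInv, hsq, Real.cos_sub]
        simp [hC, hS]
        field_simp
        ring
      · simp only [simInv, hsq, Real.sin_sub]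
        simp [hC, hS]
        field_simp
        ring
    rw [this]
  rw [hset, vol_affine (inv_ne_zero hρ.ne'), inv_inv, abs_of_pos hρ, ENNReal.toReal_mul,
    ENNReal.toReal_ofReal hρ.le]

lemma simInv_line (z w : Plane) (s : ℝ) :
    simInv a₀ a₁ C S (AffineMap.lineMap z w s)
      = AffineMap.lineMap (simInv a₀ a₁ C S z) (simInv a₀ a₁ C S w) s := by
  rw [AffineMap.lineMap_apply_module, AffineMap.lineMap_apply_module]
  exact simInv_affine z w (by ring)

/-- For every pair of distinct points there are two different admissible convex bodies with the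
same chord functions at both points. -/
theorem exists_pair_general (x₁ x₂ : Plane) (hne : x₁ ≠ x₂) :
    ∃ K L : Set Plane, Admissible x₁ x₂ K ∧ Admissible x₁ x₂ L ∧ K ≠ L ∧
      ∀ θ, chord K x₁ θ = chord L x₁ θ ∧ chord K x₂ θ = chord L x₂ θ := by
  obtain ⟨K, L, hK, hL, hKL, hch⟩ := exists_pair
  set C := (x₂ 0 - x₁ 0) / 2 with hCdef
  set S := (x₂ 1 - x₁ 1) / 2 with hSdef
  have hpos : 0 < C ^ 2 + S ^ 2 := by
    by_contra h
    push Not at h
    have h1 : C ^ 2 = 0 := le_antisymm (by nlinarith [sq_nonneg S]) (sq_nonneg C)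
    have h2 : S ^ 2 = 0 := le_antisymm (by nlinarith [sq_nonneg C]) (sq_nonneg S)
    have h3 : C = 0 := pow_eq_zero_iff (two_ne_zero) |>.mp h1
    have h4 : S = 0 := pow_eq_zero_iff (two_ne_zero) |>.mp h2
    apply hne
    ext i
    fin_cases i
    · simp only [Fin.zero_eta, Fin.isValue]; linarith
    · simp only [Fin.mk_one, Fin.isValue]; linarith
  -- polar form
  set ζ : ℂ := ⟨C, S⟩ with hζ
  have hζne : ζ ≠ 0 := by
    intro h
    have h1 : C = 0 := by have := congrArg Complex.re h; simpa [hζ] using this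
    have h2 : S = 0 := by have := congrArg Complex.im h; simpa [hζ] using this
    rw [h1, h2] at hpos; simp at hpos
  set ρ := ‖ζ‖ with hρdef
  have hρ : 0 < ρ := norm_pos_iff.mpr hζne
  set α := Complex.arg ζ with hα
  have hC : C = ρ * Real.cos α := by
    have := Complex.norm_mul_cos_arg ζ; exact this.symm
  have hS : S = ρ * Real.sin α := by
    have := Complex.norm_mul_sin_arg ζ; exact this.symm
  set Ψ := simInv (x₁ 0) (x₁ 1) C S with hΨ
  set H := simHomeo (x₁ 0) (x₁ 1) hpos.ne' with hH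
  have hHΨ : (H : Plane → Plane) = Ψ := rfl
  have hΨ1 : Ψ x₁ = !₂[-1, 0] := by
    ext i
    fin_cases i
    · simp [hΨ, simInv]
    · simp [hΨ, simInv]
  have hΨ2 : Ψ x₂ = !₂[1, 0] := by
    have e0 : x₂ 0 - x₁ 0 = 2 * C := by rw [hCdef]; ring
    have e1 : x₂ 1 - x₁ 1 = 2 * S := by rw [hSdef]; ring
    ext i
    fin_cases i
    · simp only [hΨ, simInv, e0, e1]
      simp
      field_simp
      ring
    · simp only [hΨ, simInv, e0, e1]
      simp
      ring_nf
      simp
  have adm : ∀ M : Set Plane, Admissible !₂[-1, 0] !₂[1, 0] M → Admissible x₁ x₂ (Ψ ⁻¹' M) := by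
    intro M hM
    refine ⟨?_, ?_, ?_, ?_, ?_⟩
    · rw [← hHΨ]; exact H.isCompact_preimage.mpr hM.compact
    · intro z hz w hw s t hs ht hst
      change Ψ (s • z + t • w) ∈ M
      rw [hΨ, simInv_affine z w hst]
      exact hM.convex hz hw hs ht hst
    · intro h; apply hM.notMem₁; rw [← hΨ1]; exact h
    · intro h; apply hM.notMem₂; rw [← hΨ2]; exact h
    · obtain ⟨z, hz, hzi⟩ := hM.meets
      obtain ⟨s, hs⟩ := mem_affineSpan_pair_iff_exists_lineMap_eq.mp hz
      refine ⟨AffineMap.lineMap x₁ x₂ s, AffineMap.lineMap_mem_affineSpan_pair s x₁ x₂, ?_⟩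
      rw [← hHΨ, ← H.preimage_interior]
      change Ψ _ ∈ interior M
      rw [hΨ, simInv_line, ← hΨ, hΨ1, hΨ2, hs]
      exact hzi
  refine ⟨Ψ ⁻¹' K, Ψ ⁻¹' L, adm K hK, adm L hL, ?_, ?_⟩
  · intro h
    apply hKL
    exact (H.surjective.preimage_injective) h
  · intro θ
    constructor
    · rw [hΨ, chord_sim hρ hC hS, chord_sim hρ hC hS, ← hΨ, hΨ1, (hch _).1]
    · rw [hΨ, chord_sim hρ hC hS, chord_sim hρ hC hS, ← hΨ, hΨ2, (hch _).2]

end Pool.Agent.LibXray
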