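import Pool.Agent.LibXray.Defs
import Pool.Agent.LibXray.Calc

/-!
Planar bodies bounded by graphs, and their chord functions.
-/

namespace Pool.Agent.LibXray

open Set MeasureTheory Filter Topology

/-- Region between `-g` and `g` over `[a, b]`. -/
def body (a b : ℝ) (g : ℝ → ℝ) : Set Plane := {z | z 0 ∈ Icc a b ∧ |z 1| ≤ g (z 0)}

lemma body_compact {a b : ℝ} {g : ℝ → ℝ} (hg : ContinuousOn g (Icc a b))
    (hpos : ∀ x ∈ Icc a b, 0 < g x) : IsCompact (body a b g) := by
  have himg : body a b g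
      = (fun q : ℝ × ℝ => (!₂[q.1, q.2 * g q.1] : Plane)) '' (Icc a b ×ˢ Icc (-1) 1) := by
    ext z
    constructor
    · rintro ⟨h0, h1⟩
      have hp := hpos _ h0
      refine ⟨(z 0, z 1 / g (z 0)), ⟨h0, ?_⟩, ?_⟩
      · rw [abs_le] at h1
        constructor
        · simp only; rw [le_div_iff₀ hp]; linarith [h1.1]
        · simp only; rw [div_le_iff₀ hp]; linarith [h1.2]
      · ext i
        fin_cases i
        · simp
        · simp; field_simp
    · rintro ⟨⟨x, t⟩, ⟨hx, ht⟩, rfl⟩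
      have hp := hpos _ hx
      refine ⟨by simpa using hx, ?_⟩
      simp only [Matrix.cons_val_one, Matrix.cons_val_zero,
        Matrix.cons_val_fin_one]
      rw [abs_mul, abs_of_pos hp]
      have : |t| ≤ 1 := abs_le.mpr ⟨ht.1, ht.2⟩
      nlinarith
  rw [himg]
  apply (isCompact_Icc.prod isCompact_Icc).image_of_continuousOn
  have h1 : ContinuousOn (fun q : ℝ × ℝ => q.2 * g q.1) (Icc a b ×ˢ Icc (-1) 1) := by
    apply ContinuousOn.mul (by fun_prop)
    apply hg.comp (by fun_prop)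
    intro q hq; exact hq.1
  have h2 : ContinuousOn (fun q : ℝ × ℝ => ![q.1, q.2 * g q.1]) (Icc a b ×ˢ Icc (-1) 1) := by
    rw [continuousOn_pi]
    intro i
    fin_cases i
    · simpa using continuousOn_fst
    · simpa using h1
  exact (PiLp.continuous_toLp 2 _).comp_continuousOn h2

lemma body_convex {a b : ℝ} {g : ℝ → ℝ} (hg : ConcaveOn ℝ (Icc a b) g) :
    Convex ℝ (body a b g) := by
  intro z hz w hw s t hs ht hst
  have h1 := hg.2 hz.1 hw.1 hs ht hst
  have h2 := (convex_Icc a b) hz.1 hw.1 hs ht hst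
  simp only [smul_eq_mul] at h1 h2
  refine ⟨by simpa using h2, ?_⟩
  have e0 : (s • z + t • w) 0 = s * z 0 + t * w 0 := by simp
  have e1 : (s • z + t • w) 1 = s * z 1 + t * w 1 := by simp
  rw [e0, e1]
  refine le_trans ?_ h1
  refine (abs_add_le _ _).trans ?_
  rw [abs_mul, abs_mul, abs_of_nonneg hs, abs_of_nonneg ht]
  exact add_le_add (mul_le_mul_of_nonneg_left hz.2 hs) (mul_le_mul_of_nonneg_left hw.2 ht)

lemma body_interior {a b x₀ : ℝ} {g : ℝ → ℝ} (hg : ContinuousOn g (Icc a b))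
    (hx : x₀ ∈ Ioo a b) (hpos : 0 < g x₀) : (!₂[x₀, 0] : Plane) ∈ interior (body a b g) := by
  rw [mem_interior_iff_mem_nhds]
  have hgc : ContinuousAt g x₀ := (hg x₀ (Ioo_subset_Icc_self hx)).continuousAt
    (Icc_mem_nhds hx.1 hx.2)
  have c0 : Continuous (fun z : Plane => z 0) := by fun_prop
  have c1 : Continuous (fun z : Plane => |z 1|) := by fun_prop
  have t0 : Tendsto (fun z : Plane => z 0) (𝓝 (!₂[x₀, 0] : Plane)) (𝓝 x₀) := by
    have := c0.tendsto (!₂[x₀, 0] : Plane); simpa using this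
  have t1 : Tendsto (fun z : Plane => |z 1|) (𝓝 (!₂[x₀, 0] : Plane)) (𝓝 0) := by
    have := c1.tendsto (!₂[x₀, 0] : Plane); simpa using this
  have t2 : Tendsto (fun z : Plane => g (z 0)) (𝓝 (!₂[x₀, 0] : Plane)) (𝓝 (g x₀)) :=
    hgc.tendsto.comp t0
  have e1 := t0.eventually (Ioo_mem_nhds hx.1 hx.2)
  have e2 := t1.eventually_lt t2 hpos
  filter_upwards [e1, e2] with z hz1 hz2
  exact ⟨Ioo_subset_Icc_self hz1, hz2.le⟩

lemma vol_affine {μ : ℝ} (hμ : μ ≠ 0) (b : ℝ) (T : Set ℝ) :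
    volume {t : ℝ | t * μ + b ∈ T} = ENNReal.ofReal |μ⁻¹| * volume T := by
  have h1 : {t : ℝ | t * μ + b ∈ T} = (· * μ) ⁻¹' ((· + b) ⁻¹' T) := rfl
  rw [h1, Real.volume_preimage_mul_right hμ, measure_preimage_add_right]

lemma chord_body (a b m θ : ℝ) (g : ℝ → ℝ) :
    chord (body a b g) (!₂[m, 0] : Plane) θ
      = (volume {t : ℝ | m + t * Real.cos θ ∈ Icc a b ∧
          |t * Real.sin θ| ≤ g (m + t * Real.cos θ)}).toReal := by
  unfold chord body
  congr 2
  ext t
  simp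

end Pool.Agent.LibXray
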