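import Pool.Agent.LibXray.Geom

/-!
Two different admissible bodies with the same chord functions.
-/

namespace Pool.Agent.LibXray

open Set MeasureTheory Filter Topology

lemma exp_neg_chi {r e : ℝ} (hr : Rg r) (he : e ∈ Icc (0:ℝ) (1/100)) :
    (9/5 + e) * Real.exp (-chi r e) = (1/5 - e) * (1 + r - e) / (r - 1 - e) := by
  obtain ⟨h1, h2⟩ := hr
  obtain ⟨e1, e2⟩ := he
  have q1 : 0 < 9/5 + e := by linarith
  have q2 : 0 < 1/5 - e := by linarith
  have q3 : 0 < 1 + r - e := by linarith
  have q4 : 0 < r - 1 - e := by linarith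
  have : -chi r e = Real.log (((1/5 - e) * (1 + r - e)) / ((9/5 + e) * (r - 1 - e))) := by
    rw [Real.log_div (mul_pos q2 q3).ne' (mul_pos q1 q4).ne', Real.log_mul q2.ne' q3.ne',
      Real.log_mul q1.ne' q4.ne']
    unfold chi; ring
  rw [this, Real.exp_log (div_pos (mul_pos q2 q3) (mul_pos q1 q4))]
  field_simp

/-- Level sets of `exp V` and `exp F` have the same measure. -/
lemma level_eq {c : ℝ} {V W : ℝ → ℝ}
    (h : ∀ l, volume {e | e ∈ Icc 0 c ∧ l ≤ V e} = volume {e | e ∈ Icc 0 c ∧ l ≤ W e}) {τ : ℝ}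
    (hτ : 0 ≤ τ) : volume {e | e ∈ Icc 0 c ∧ τ ≤ Real.exp (V e)}
      = volume {e | e ∈ Icc 0 c ∧ τ ≤ Real.exp (W e)} := by
  rcases eq_or_lt_of_le hτ with h0 | h0
  · rw [← h0]
    simp [(Real.exp_pos _).le]
  · have := h (Real.log τ)
    simpa only [Real.log_le_iff_le_exp h0] using this

theorem exists_pair : ∃ K L : Set Plane,
    Admissible !₂[-1, 0] !₂[1, 0] K ∧ Admissible !₂[-1, 0] !₂[1, 0] L ∧ K ≠ L ∧
    ∀ θ, chord K !₂[-1, 0] θ = chord L !₂[-1, 0] θ ∧ chord K !₂[1, 0] θ = chord L !₂[1, 0] θ := by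
  obtain ⟨r, hr, hr0⟩ := exists_r
  have hχ := chi_Forc hr hr0
  obtain ⟨F, hanti, hconc, hlip, hfix⟩ := exists_fixed hχ
  have hF : Fix (1/100) (23/10) (chi r) F := ⟨hanti, hconc, hlip, hfix⟩
  obtain ⟨hr1, hr2⟩ := id hr
  have hFc : ContinuousOn F (Icc 0 (1/100)) := continuousOn_of_lip hlip
  set V : ℝ → ℝ := fun e => F (1/100 - e) - chi r e with hV
  have hVc : ContinuousOn V (Icc 0 (1/100)) := by
    have h2 : ContinuousOn (fun e => F (1/100 - e)) (Icc 0 (1/100)) := by
      apply hFc.comp (by fun_prop)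
      intro e he; exact refl_mem he
    exact h2.sub (chi_cont hr)
  have hVconc : ConcaveOn ℝ (Icc 0 (1/100)) V := (refl_concave hconc).sub (chi_conv hr)
  have hequi : ∀ l, volume {e | e ∈ Icc (0:ℝ) (1/100) ∧ l ≤ V e}
      = volume {e | e ∈ Icc (0:ℝ) (1/100) ∧ l ≤ F e} := by
    intro l
    rw [Rr_equi hVc hVconc l]
    congr 1
    ext e
    constructor
    · rintro ⟨h1, h2⟩; exact ⟨h1, by rwa [hfix e h1] at h2⟩
    · rintro ⟨h1, h2⟩; exact ⟨h1, by rwa [hfix e h1]⟩
  -- the two profile functions on [0, 1/100]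
  set k : ℝ → ℝ := fun y => (99/100 + r + y) * Real.exp (F y) with hk
  set g : ℝ → ℝ := fun e => (9/5 + e) * Real.exp (V e) with hg
  have hkc : ContinuousOn k (Icc 0 (1/100)) := by
    have := hFc.rexp
    exact ContinuousOn.mul (by fun_prop) this
  have hgc : ContinuousOn g (Icc 0 (1/100)) := by
    have := hVc.rexp
    exact ContinuousOn.mul (by fun_prop) this
  have hkpos : ∀ e ∈ Icc (0:ℝ) (1/100), 0 < k e := by
    intro e he
    have := he.1
    exact mul_pos (by linarith) (Real.exp_pos _)
  have hgpos : ∀ e ∈ Icc (0:ℝ) (1/100), 0 < g e := by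
    intro e he
    have := he.1
    exact mul_pos (by linarith) (Real.exp_pos _)
  have hkconc : ConcaveOn ℝ (Icc 0 (1/100)) k := by
    apply K_concave hχ hF
    · intro e he; have := he.1; linarith
    · intro σ h1 h2; exact test1 hr (by linarith) h2
    · intro σ h1 h2; exact test2 hr h1 h2
  -- relation between g and k
  have hgk : ∀ e ∈ Icc (0:ℝ) (1/100), g e = (1/5 - e) * (k (1/100 - e) / (r - 1 - e)) := by
    intro e he
    have q4 : 0 < r - 1 - e := by linarith [he.2]
    have h1 := exp_neg_chi hr he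
    have h2 : Real.exp (V e) = Real.exp (-chi r e) * Real.exp (F (1/100 - e)) := by
      rw [← Real.exp_add]; congr 1; simp only [hV]; ring
    simp only [hg, hk]
    rw [h2, ← mul_assoc, h1]
    field_simp
    ring
  have hgconc : ConcaveOn ℝ (Icc 0 (1/100)) g := by
    have h1 : ConcaveOn ℝ (Icc 0 (1/100))
        (fun y => k y * (1 - (r - 6/5) / ((r - 101/100) + y))) := by
      apply concave_mul_hyp hkconc (by linarith)
      · intro y hy; linarith [hy.1]
      · intro y hy; linarith [hy.1]
      · intro x hx y hy hxy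
        simp only [hk]
        have bx : 0 < r - 101/100 + x := by linarith [hx.1]
        have by' : 0 < r - 101/100 + y := by linarith [hy.1]
        have e1 : (99/100 + r + x) * Real.exp (F x) / (r - 101/100 + x)
            = (1 + 2 / (r - 101/100 + x)) * Real.exp (F x) := by
          have e0 : 99/100 + r + x = (r - 101/100 + x) + 2 := by ring
          rw [e0, mul_div_right_comm, add_div, div_self (ne_of_gt bx)]
        have e2 : (99/100 + r + y) * Real.exp (F y) / (r - 101/100 + y)
            = (1 + 2 / (r - 101/100 + y)) * Real.exp (F y) := by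
          have e0 : 99/100 + r + y = (r - 101/100 + y) + 2 := by ring
          rw [e0, mul_div_right_comm, add_div, div_self (ne_of_gt by')]
        rw [e1, e2]
        apply mul_le_mul _ (Real.exp_le_exp.mpr (hanti hx hy hxy)) (Real.exp_pos _).le (by positivity)
        have : 2 / (r - 101/100 + y) ≤ 2 / (r - 101/100 + x) :=
          div_le_div_of_nonneg_left (by norm_num) bx (by linarith)
        linarith
    have h2 := refl_concave h1
    refine h2.congr ?_
    intro e he
    have q4 : 0 < r - 1 - e := by linarith [he.2]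
    have e1 : r - 101/100 + (1/100 - e) = r - 1 - e := by ring
    simp only
    rw [hgk e he, e1]
    field_simp
    ring
  -- shifted profiles
  set gK : ℝ → ℝ := fun x => k (x - (r - 1/100)) with hgK
  set gL : ℝ → ℝ := fun x => g (x - 4/5) with hgL
  have mK : ∀ x ∈ Icc (r - 1/100) r, x - (r - 1/100) ∈ Icc (0:ℝ) (1/100) := by
    intro x hx; exact ⟨by linarith [hx.1], by linarith [hx.2]⟩
  have mL : ∀ x ∈ Icc (4/5:ℝ) (81/100), x - 4/5 ∈ Icc (0:ℝ) (1/100) := by
    intro x hx; exact ⟨by linarith [hx.1], by linarith [hx.2]⟩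
  have shift_conc : ∀ (a b : ℝ) (f : ℝ → ℝ), (∀ x ∈ Icc a b, x - a ∈ Icc (0:ℝ) (1/100)) →
      ConcaveOn ℝ (Icc 0 (1/100)) f → ConcaveOn ℝ (Icc a b) (fun x => f (x - a)) := by
    intro a b f hm hf
    refine ⟨convex_Icc a b, ?_⟩
    intro x hx y hy s t hs ht hst
    have := hf.2 (hm x hx) (hm y hy) hs ht hst
    simp only [smul_eq_mul] at this ⊢
    have e : s * (x - a) + t * (y - a) = s * x + t * y - a := by
      have : a = (s + t) * a := by rw [hst]; ring
      linear_combination this
    rwa [e] at this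
  have gKc : ContinuousOn gK (Icc (r - 1/100) r) := hkc.comp (by fun_prop) mK
  have gLc : ContinuousOn gL (Icc (4/5) (81/100)) := hgc.comp (by fun_prop) mL
  have gKpos : ∀ x ∈ Icc (r - 1/100) r, 0 < gK x := fun x hx => hkpos _ (mK x hx)
  have gLpos : ∀ x ∈ Icc (4/5:ℝ) (81/100), 0 < gL x := fun x hx => hgpos _ (mL x hx)
  have gKconc : ConcaveOn ℝ (Icc (r - 1/100) r) gK := shift_conc _ _ k mK hkconc
  have gLconc : ConcaveOn ℝ (Icc (4/5) (81/100)) gL := shift_conc _ _ g mL hgconc
  have hline : ∀ x₀ : ℝ, (!₂[x₀, 0] : Plane) ∈ (line[ℝ, (!₂[-1, 0] : Plane), !₂[1, 0]] : Set Plane) := by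
    intro x₀
    have := AffineMap.lineMap_mem_affineSpan_pair ((x₀ + 1)/2) (!₂[-1, 0] : Plane) (!₂[1, 0])
    have e : AffineMap.lineMap (!₂[-1, 0] : Plane) (!₂[1, 0]) ((x₀ + 1)/2) = (!₂[x₀, 0] : Plane) := by
      ext i
      fin_cases i
      · simp [AffineMap.lineMap_apply]; ring
      · simp [AffineMap.lineMap_apply]
    rw [e] at this; exact this
  refine ⟨body (r - 1/100) r gK, body (4/5) (81/100) gL, ?_, ?_, ?_, ?_⟩
  · refine ⟨body_compact gKc gKpos, body_convex gKconc, ?_, ?_, ?_⟩
    · rintro ⟨h, _⟩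
      have := h.1; simp at this; linarith
    · rintro ⟨h, _⟩
      have := h.1; simp at this; linarith
    · refine ⟨!₂[r - 1/200, 0], hline _, ?_⟩
      have hm : r - 1/200 ∈ Ioo (r - 1/100) r := ⟨by linarith, by linarith⟩
      exact body_interior gKc hm (gKpos _ (Ioo_subset_Icc_self hm))
  · refine ⟨body_compact gLc gLpos, body_convex gLconc, ?_, ?_, ?_⟩
    · rintro ⟨h, _⟩
      have := h.1; simp at this; linarith
    · rintro ⟨h, _⟩
      have := h.2; simp at this; linarith
    · refine ⟨!₂[161/200, 0], hline _, ?_⟩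
      have hm : (161/200 : ℝ) ∈ Ioo (4/5) (81/100) := ⟨by norm_num, by norm_num⟩
      exact body_interior gLc hm (gLpos _ (Ioo_subset_Icc_self hm))
  · intro h
    have h1 : (!₂[161/200, 0] : Plane) ∈ body (4/5) (81/100) gL := by
      refine ⟨by constructor <;> simp <;> norm_num, ?_⟩
      have := gLpos (161/200) ⟨by norm_num, by norm_num⟩
      simpa using this.le
    rw [← h] at h1
    have := h1.1.1
    simp at this
    linarith
  · intro θ
    rw [chord_body, chord_body, chord_body, chord_body]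
    by_cases hcos : Real.cos θ = 0
    · have e1 : ∀ (a b m : ℝ) (f : ℝ → ℝ), m ∉ Icc a b →
          {t : ℝ | m + t * Real.cos θ ∈ Icc a b ∧ |t * Real.sin θ| ≤ f (m + t * Real.cos θ)} = ∅ := by
        intro a b m f hm
        ext t
        simp only [hcos, mul_zero, add_zero, mem_empty_iff_false, iff_false]
        intro h; exact hm h.1
      rw [e1 _ _ _ _ (fun h => by linarith [h.1]), e1 _ _ _ _ (fun h => by linarith [h.1]),
        e1 _ _ _ _ (fun h => by linarith [h.1]), e1 _ _ _ _ (fun h => by linarith [h.2])]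
      simp
    set μ := Real.cos θ with hμ
    set τ := |Real.sin θ / μ| with hτ
    have habs : ∀ t, |t * Real.sin θ| = |t * μ| * τ := by
      intro t
      rw [hτ, ← abs_mul]; congr 1; field_simp
    constructor
    · -- first point
      have sK : {t : ℝ | -1 + t * μ ∈ Icc (r - 1/100) r ∧ |t * Real.sin θ| ≤ gK (-1 + t * μ)}
          = {t : ℝ | t * μ + (-(99/100) - r) ∈ {e | e ∈ Icc (0:ℝ) (1/100) ∧ τ ≤ Real.exp (F e)}} := by
        ext t
        obtain ⟨e, he⟩ : ∃ e, e = t * μ + (-(99/100) - r) := ⟨_, rfl⟩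
        have ex : -1 + t * μ = e + (r - 1/100) := by rw [he]; ring
        have et : t * μ = 99/100 + r + e := by rw [he]; ring
        have hmem : (-1 + t * μ ∈ Icc (r - 1/100) r) ↔ e ∈ Icc (0:ℝ) (1/100) := by
          rw [ex]
          constructor
          · intro h; exact ⟨by linarith [h.1], by linarith [h.2]⟩
          · intro h; exact ⟨by linarith [h.1], by linarith [h.2]⟩
        simp only [mem_ofPred_eq]
        rw [hmem, ← he]
        apply and_congr_right
        intro h
        have hp : 0 < 99/100 + r + e := by linarith [h.1]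
        rw [ex, habs, et, abs_of_pos hp, hgK]
        simp only [hk]
        rw [add_sub_cancel_right]
        exact mul_le_mul_iff_right₀ hp
      have sL : {t : ℝ | -1 + t * μ ∈ Icc (4/5) (81/100) ∧ |t * Real.sin θ| ≤ gL (-1 + t * μ)}
          = {t : ℝ | t * μ + (-(9/5)) ∈ {e | e ∈ Icc (0:ℝ) (1/100) ∧ τ ≤ Real.exp (V e)}} := by
        ext t
        obtain ⟨e, he⟩ : ∃ e, e = t * μ + (-(9/5)) := ⟨_, rfl⟩
        have ex : -1 + t * μ = e + 4/5 := by rw [he]; ring
        have et : t * μ = 9/5 + e := by rw [he]; ring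
        have hmem : (-1 + t * μ ∈ Icc (4/5:ℝ) (81/100)) ↔ e ∈ Icc (0:ℝ) (1/100) := by
          rw [ex]
          constructor
          · intro h; exact ⟨by linarith [h.1], by linarith [h.2]⟩
          · intro h; exact ⟨by linarith [h.1], by linarith [h.2]⟩
        simp only [mem_ofPred_eq]
        rw [hmem, ← he]
        apply and_congr_right
        intro h
        have hp : 0 < 9/5 + e := by linarith [h.1]
        rw [ex, habs, et, abs_of_pos hp, hgL]
        simp only [hg]
        rw [add_sub_cancel_right]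
        exact mul_le_mul_iff_right₀ hp
      rw [sK, sL, vol_affine hcos, vol_affine hcos, level_eq hequi (abs_nonneg _)]
    · -- second point
      set T : Set ℝ := {y | y ∈ Icc (0:ℝ) (1/100) ∧ τ ≤ k y / (r - 101/100 + y)} with hT
      have sK : {t : ℝ | 1 + t * μ ∈ Icc (r - 1/100) r ∧ |t * Real.sin θ| ≤ gK (1 + t * μ)}
          = {t : ℝ | t * μ + (101/100 - r) ∈ T} := by
        ext t
        obtain ⟨e, he⟩ : ∃ e, e = t * μ + (101/100 - r) := ⟨_, rfl⟩
        have ex : 1 + t * μ = e + (r - 1/100) := by rw [he]; ring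
        have et : t * μ = r - 101/100 + e := by rw [he]; ring
        have hmem : (1 + t * μ ∈ Icc (r - 1/100) r) ↔ e ∈ Icc (0:ℝ) (1/100) := by
          rw [ex]
          constructor
          · intro h; exact ⟨by linarith [h.1], by linarith [h.2]⟩
          · intro h; exact ⟨by linarith [h.1], by linarith [h.2]⟩
        simp only [mem_ofPred_eq, hT]
        rw [hmem, ← he]
        apply and_congr_right
        intro h
        have hp : 0 < r - 101/100 + e := by linarith [h.1]
        rw [ex, habs, et, abs_of_pos hp, hgK]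
        simp only
        rw [add_sub_cancel_right, le_div_iff₀ hp, mul_comm]
      have sL : {t : ℝ | 1 + t * μ ∈ Icc (4/5) (81/100) ∧ |t * Real.sin θ| ≤ gL (1 + t * μ)}
          = {t : ℝ | t * (-μ) + (-(19/100)) ∈ T} := by
        ext t
        obtain ⟨y, hy⟩ : ∃ y, y = t * (-μ) + (-(19/100)) := ⟨_, rfl⟩
        have ex : 1 + t * μ = (1/100 - y) + 4/5 := by rw [hy]; ring
        have et : t * μ = -(1/5 - (1/100 - y)) := by rw [hy]; ring
        have hmem : (1 + t * μ ∈ Icc (4/5:ℝ) (81/100)) ↔ y ∈ Icc (0:ℝ) (1/100) := by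
          rw [ex]
          constructor
          · intro h; exact ⟨by linarith [h.2], by linarith [h.1]⟩
          · intro h; exact ⟨by linarith [h.2], by linarith [h.1]⟩
        simp only [mem_ofPred_eq, hT]
        rw [hmem, ← hy]
        apply and_congr_right
        intro h
        have hp : 0 < 1/5 - (1/100 - y) := by linarith [h.1]
        rw [ex, habs, et, abs_neg, abs_of_pos hp, hgL]
        simp only
        rw [add_sub_cancel_right, hgk _ (refl_mem h)]
        have e1 : (1/100 - (1/100 - y) : ℝ) = y := by ring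
        have e2 : r - 1 - (1/100 - y) = r - 101/100 + y := by ring
        rw [e1, e2]
        exact mul_le_mul_iff_right₀ hp
      rw [sK, sL, vol_affine hcos, vol_affine (neg_ne_zero.mpr hcos)]
      rw [inv_neg, abs_neg]

end Pool.Agent.LibXray
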