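import Mathlib

/-!
Decreasing rearrangement of concave functions on an interval, by an explicit formula.
-/

namespace Pool.Agent.LibXray

open Set MeasureTheory

/-- `Rr c V y = sup over a in [0, c - y] of min (V a) (V (a + y))`. -/
noncomputable def Rr (c : ℝ) (V : ℝ → ℝ) (y : ℝ) : ℝ :=
  sSup ((fun a => min (V a) (V (a + y))) '' Icc 0 (c - y))

section basic
variable {c : ℝ} {V : ℝ → ℝ}

lemma Rr_cont_aux (hV : ContinuousOn V (Icc 0 c)) {y : ℝ} (hy : y ∈ Icc 0 c) :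
    ContinuousOn (fun a => min (V a) (V (a + y))) (Icc 0 (c - y)) := by
  have h1 : ContinuousOn V (Icc 0 (c - y)) :=
    hV.mono (Icc_subset_Icc le_rfl (by linarith [hy.1]))
  have h2 : ContinuousOn (fun a => V (a + y)) (Icc 0 (c - y)) := by
    apply hV.comp (by fun_prop)
    intro a ha
    exact ⟨by linarith [ha.1, hy.1], by linarith [ha.2]⟩
  exact continuous_min.comp_continuousOn (h1.prodMk h2)

lemma Rr_exists (hV : ContinuousOn V (Icc 0 c)) {y : ℝ} (hy : y ∈ Icc 0 c) :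
    ∃ a ∈ Icc 0 (c - y), Rr c V y = min (V a) (V (a + y)) := by
  have hne : (Icc 0 (c - y)).Nonempty := ⟨0, le_rfl, by linarith [hy.2]⟩
  obtain ⟨a, ha, h⟩ := isCompact_Icc.exists_sSup_image_eq hne (Rr_cont_aux hV hy)
  exact ⟨a, ha, h⟩

lemma le_Rr (hV : ContinuousOn V (Icc 0 c)) {y : ℝ} (hy : y ∈ Icc 0 c) {a : ℝ}
    (ha : a ∈ Icc 0 (c - y)) : min (V a) (V (a + y)) ≤ Rr c V y := by
  apply le_csSup
  · exact (isCompact_Icc.image_of_continuousOn (Rr_cont_aux hV hy)).bddAbove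
  · exact ⟨a, ha, rfl⟩

lemma le_Rr' (hV : ContinuousOn V (Icc 0 c)) {y : ℝ} (hy : y ∈ Icc 0 c) {a l : ℝ}
    (ha : a ∈ Icc 0 (c - y)) (h1 : l ≤ V a) (h2 : l ≤ V (a + y)) : l ≤ Rr c V y :=
  le_trans (le_min h1 h2) (le_Rr hV hy ha)

lemma Rr_exists' (hV : ContinuousOn V (Icc 0 c)) {y : ℝ} (hy : y ∈ Icc 0 c) :
    ∃ a ∈ Icc 0 (c - y), Rr c V y ≤ V a ∧ Rr c V y ≤ V (a + y) := by
  obtain ⟨a, ha, h⟩ := Rr_exists hV hy
  exact ⟨a, ha, h ▸ min_le_left _ _, h ▸ min_le_right _ _⟩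

/-- Nonexpansiveness in the sup norm (one-sided form). -/
lemma Rr_le_add {W : ℝ → ℝ} (hV : ContinuousOn V (Icc 0 c)) (hW : ContinuousOn W (Icc 0 c))
    {ε : ℝ} (h : ∀ e ∈ Icc 0 c, V e ≤ W e + ε) {y : ℝ} (hy : y ∈ Icc 0 c) :
    Rr c V y ≤ Rr c W y + ε := by
  obtain ⟨a, ha, h1, h2⟩ := Rr_exists' hV hy
  have ha1 : a ∈ Icc 0 c := ⟨ha.1, by linarith [ha.2, hy.1]⟩
  have ha2 : a + y ∈ Icc 0 c := ⟨by linarith [ha.1, hy.1], by linarith [ha.2]⟩
  have := le_Rr' hW hy ha (l := Rr c V y - ε) (by linarith [h a ha1]) (by linarith [h _ ha2])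
  linarith

lemma Rr_antitone (hV : ContinuousOn V (Icc 0 c)) (hc : ConcaveOn ℝ (Icc 0 c) V) :
    AntitoneOn (Rr c V) (Icc 0 c) := by
  intro y hy z hz hyz
  obtain ⟨a, ha, h1, h2⟩ := Rr_exists' hV hz
  refine le_Rr' hV hy (a := a) ⟨ha.1, by linarith [ha.2]⟩ h1 ?_
  -- a + y lies in [a, a + z]
  rcases eq_or_lt_of_le (le_trans hy.1 hyz) with h0 | h0
  · have : y = z := by linarith [hy.1]
    rw [this]; exact h2
  have m1 : a ∈ Icc 0 c := ⟨ha.1, by linarith [ha.2, hz.1]⟩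
  have m2 : a + z ∈ Icc 0 c := ⟨by linarith [ha.1, hz.1], by linarith [ha.2]⟩
  have p1 : (0:ℝ) ≤ (z - y) / z := div_nonneg (by linarith) h0.le
  have p2 : (0:ℝ) ≤ y / z := div_nonneg hy.1 h0.le
  have p3 : (z - y) / z + y / z = 1 := by field_simp; ring
  have hm := hc.2 m1 m2 p1 p2 p3
  have e1 : ((z - y) / z) • a + (y / z) • (a + z) = a + y := by
    simp only [smul_eq_mul]; field_simp; ring
  rw [e1] at hm
  simp only [smul_eq_mul] at hm
  have e2 : Rr c V z = (z - y) / z * Rr c V z + y / z * Rr c V z := by field_simp; ring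
  have hp1 : (0:ℝ) ≤ (z - y) / z := div_nonneg (by linarith) h0.le
  have hp2 : (0:ℝ) ≤ y / z := div_nonneg hy.1 h0.le
  calc Rr c V z = (z - y) / z * Rr c V z + y / z * Rr c V z := e2
    _ ≤ (z - y) / z * V a + y / z * V (a + z) :=
        add_le_add (mul_le_mul_of_nonneg_left h1 hp1) (mul_le_mul_of_nonneg_left h2 hp2)
    _ ≤ V (a + y) := hm

lemma Rr_concave (hV : ContinuousOn V (Icc 0 c)) (hc : ConcaveOn ℝ (Icc 0 c) V) :
    ConcaveOn ℝ (Icc 0 c) (Rr c V) := by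
  refine ⟨convex_Icc 0 c, ?_⟩
  intro y hy z hz s t hs ht hst
  obtain ⟨a, ha, h1, h2⟩ := Rr_exists' hV hy
  obtain ⟨b, hb, h3, h4⟩ := Rr_exists' hV hz
  simp only [smul_eq_mul]
  have hyz : s * y + t * z ∈ Icc 0 c := by
    have := (convex_Icc 0 c) hy hz hs ht hst
    simpa using this
  have m1 : a ∈ Icc 0 c := ⟨ha.1, by linarith [ha.2, hy.1]⟩
  have m2 : b ∈ Icc 0 c := ⟨hb.1, by linarith [hb.2, hz.1]⟩
  have m3 : a + y ∈ Icc 0 c := ⟨by linarith [ha.1, hy.1], by linarith [ha.2]⟩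
  have m4 : b + z ∈ Icc 0 c := ⟨by linarith [hb.1, hz.1], by linarith [hb.2]⟩
  have k1 := hc.2 m1 m2 hs ht hst
  have k2 := hc.2 m3 m4 hs ht hst
  simp only [smul_eq_mul] at k1 k2
  refine le_Rr' hV hyz (a := s * a + t * b) ⟨?_, ?_⟩ ?_ ?_
  · exact add_nonneg (mul_nonneg hs ha.1) (mul_nonneg ht hb.1)
  · have e : c - (s * y + t * z) = s * (c - y) + t * (c - z) := by
      have : c = (s + t) * c := by rw [hst]; ring
      linear_combination this
    rw [e]
    exact add_le_add (mul_le_mul_of_nonneg_left ha.2 hs) (mul_le_mul_of_nonneg_left hb.2 ht)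
  · exact le_trans (add_le_add (mul_le_mul_of_nonneg_left h1 hs)
      (mul_le_mul_of_nonneg_left h3 ht)) k1
  · have e : s * a + t * b + (s * y + t * z) = s * (a + y) + t * (b + z) := by ring
    rw [e]
    exact le_trans (add_le_add (mul_le_mul_of_nonneg_left h2 hs)
      (mul_le_mul_of_nonneg_left h4 ht)) k2

lemma Rr_lip (hV : ContinuousOn V (Icc 0 c)) (hc : ConcaveOn ℝ (Icc 0 c) V) {S : ℝ}
    (hS : ∀ x ∈ Icc 0 c, ∀ y ∈ Icc 0 c, |V x - V y| ≤ S * |x - y|) :
    ∀ x ∈ Icc 0 c, ∀ y ∈ Icc 0 c, |Rr c V x - Rr c V y| ≤ S * |x - y| := by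
  have key : ∀ x ∈ Icc 0 c, ∀ y ∈ Icc 0 c, x ≤ y → |Rr c V x - Rr c V y| ≤ S * |x - y| := by
    intro x hx y hy hxy
    have h0 : 0 ≤ Rr c V x - Rr c V y := by linarith [Rr_antitone hV hc hx hy hxy]
    rw [abs_of_nonneg h0, abs_of_nonpos (by linarith : x - y ≤ 0)]
    obtain ⟨a, ha, h1, h2⟩ := Rr_exists' hV hx
    have hSn : 0 ≤ S ∨ x = y := by
      by_cases h : x = y
      · right; exact h
      · left
        have := hS x hx y hy
        have hp : 0 < |x - y| := abs_pos.mpr (sub_ne_zero.mpr h)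
        by_contra hneg
        push Not at hneg
        have := (abs_nonneg (V x - V y)).trans this
        nlinarith
    rcases hSn with hSn | hxe
    swap
    · subst hxe; simp
    -- choose b = min a (c - y)
    set b := min a (c - y) with hb
    have hb0 : 0 ≤ b := le_min ha.1 (by linarith [hy.2])
    have hb1 : b ≤ c - y := min_le_right _ _
    have hb2 : b ≤ a := min_le_left _ _
    have hb3 : a - b ≤ y - x := by
      rcases min_choice a (c - y) with h | h
      · rw [hb, h]; linarith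
      · rw [hb, h]; linarith [ha.2]
    have k1 := hS a ⟨ha.1, by linarith [ha.2, hx.1]⟩ b ⟨hb0, by linarith [hy.1]⟩
    have k2 := hS (a + x) ⟨by linarith [ha.1, hx.1], by linarith [ha.2]⟩ (b + y)
      ⟨by linarith [hy.1], by linarith⟩
    rw [abs_of_nonneg (by linarith : 0 ≤ a - b)] at k1
    rw [abs_of_nonpos (by linarith : a + x - (b + y) ≤ 0)] at k2
    have k1' := (abs_le.mp k1).2
    have k2' := (abs_le.mp k2).2
    have := le_Rr' hV hy (a := b) (l := Rr c V x - S * (y - x)) ⟨hb0, hb1⟩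
      (by nlinarith) (by nlinarith)
    linarith
  intro x hx y hy
  rcases le_total x y with h | h
  · exact key x hx y hy h
  · have := key y hy x hx h
    rw [abs_sub_comm, abs_sub_comm x y]; exact this

/-- Superlevel sets of `V` and of its rearrangement have the same length. -/
lemma Rr_equi (hV : ContinuousOn V (Icc 0 c)) (hc : ConcaveOn ℝ (Icc 0 c) V)
    (l : ℝ) : volume {e | e ∈ Icc 0 c ∧ l ≤ V e} = volume {e | e ∈ Icc 0 c ∧ l ≤ Rr c V e} := by
  by_cases hne : {e | e ∈ Icc 0 c ∧ l ≤ V e}.Nonempty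
  · -- the superlevel set is a closed interval
    have hclosed : IsCompact {e | e ∈ Icc 0 c ∧ l ≤ V e} := by
      have : {e | e ∈ Icc 0 c ∧ l ≤ V e} = Icc 0 c ∩ V ⁻¹' (Ici l) := by
        ext e; simp
      rw [this]
      exact isCompact_Icc.of_isClosed_subset
        (hV.preimage_isClosed_of_isClosed isClosed_Icc isClosed_Ici) inter_subset_left
    have hconv : Convex ℝ {e | e ∈ Icc 0 c ∧ l ≤ V e} := hc.convex_ge l
    have hord := hconv.ordConnected
    obtain ⟨a, haS, hamin⟩ := hclosed.exists_isLeast hne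
    obtain ⟨b, hbS, hbmax⟩ := hclosed.exists_isGreatest hne
    have hab : a ≤ b := hamin hbS
    have hset : {e | e ∈ Icc 0 c ∧ l ≤ V e} = Icc a b := by
      apply Subset.antisymm
      · intro e he; exact ⟨hamin he, hbmax he⟩
      · exact hord.out haS hbS
    have hset2 : {e | e ∈ Icc 0 c ∧ l ≤ Rr c V e} = Icc 0 (b - a) := by
      ext y
      constructor
      · rintro ⟨hy, hl⟩
        obtain ⟨a', ha', h1, h2⟩ := Rr_exists' hV hy
        refine ⟨hy.1, ?_⟩
        have m1 : a' ∈ {e | e ∈ Icc 0 c ∧ l ≤ V e} :=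
          ⟨⟨ha'.1, by linarith [ha'.2, hy.1]⟩, hl.trans h1⟩
        have m2 : a' + y ∈ {e | e ∈ Icc 0 c ∧ l ≤ V e} :=
          ⟨⟨by linarith [ha'.1, hy.1], by linarith [ha'.2]⟩, hl.trans h2⟩
        rw [hset] at m1 m2
        linarith [m1.1, m2.2]
      · rintro ⟨h0, h1⟩
        have hyc : y ∈ Icc 0 c := ⟨h0, by linarith [haS.1.1, hbS.1.2]⟩
        refine ⟨hyc, le_Rr' hV hyc (a := a) ⟨haS.1.1, by linarith [hbS.1.2]⟩ haS.2 ?_⟩
        have : a + y ∈ Icc a b := ⟨by linarith, by linarith⟩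
        rw [← hset] at this
        exact this.2
    rw [hset, hset2]
    simp
  · have h2 : ¬ {e | e ∈ Icc 0 c ∧ l ≤ Rr c V e}.Nonempty := by
      rintro ⟨y, hy, hl⟩
      obtain ⟨a', ha', h1, h2⟩ := Rr_exists' hV hy
      exact hne ⟨a', ⟨ha'.1, by linarith [ha'.2, hy.1]⟩, hl.trans h1⟩
    rw [not_nonempty_iff_eq_empty] at hne h2
    rw [hne, h2]

end basic

lemma continuousOn_of_lip {c S : ℝ} {f : ℝ → ℝ}
    (h : ∀ x ∈ Icc 0 c, ∀ y ∈ Icc 0 c, |f x - f y| ≤ S * |x - y|) : ContinuousOn f (Icc 0 c) := by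
  have : LipschitzOnWith (Real.toNNReal S) f (Icc 0 c) := by
    apply LipschitzOnWith.of_dist_le_mul
    intro x hx y hy
    rw [Real.dist_eq, Real.dist_eq]
    refine (h x hx y hy).trans ?_
    exact mul_le_mul_of_nonneg_right (Real.le_coe_toNNReal S) (abs_nonneg _)
  exact this.continuousOn

lemma integral_eq_of_equi {c : ℝ} {V W : ℝ → ℝ} (hc0 : 0 ≤ c) (hV : ContinuousOn V (Icc 0 c))
    (hW : ContinuousOn W (Icc 0 c))
    (h : ∀ l, volume {e | e ∈ Icc 0 c ∧ l ≤ V e} = volume {e | e ∈ Icc 0 c ∧ l ≤ W e}) :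
    ∫ e in (0:ℝ)..c, V e = ∫ e in (0:ℝ)..c, W e := by
  set μ : Measure ℝ := volume.restrict (Icc 0 c) with hμ
  have hVm : AEMeasurable V μ := hV.aemeasurable measurableSet_Icc
  have hWm : AEMeasurable W μ := hW.aemeasurable measurableSet_Icc
  have hmap : μ.map V = μ.map W := by
    apply Measure.ext_of_Ici
    intro l
    rw [Measure.map_apply_of_aemeasurable hVm measurableSet_Ici,
      Measure.map_apply_of_aemeasurable hWm measurableSet_Ici, hμ,
      Measure.restrict_apply' measurableSet_Icc, Measure.restrict_apply' measurableSet_Icc]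
    have e1 : V ⁻¹' Ici l ∩ Icc 0 c = {e | e ∈ Icc 0 c ∧ l ≤ V e} := by
      ext e; simp [and_comm]
    have e2 : W ⁻¹' Ici l ∩ Icc 0 c = {e | e ∈ Icc 0 c ∧ l ≤ W e} := by
      ext e; simp [and_comm]
    rw [e1, e2]; exact h l
  rw [intervalIntegral.integral_of_le hc0, intervalIntegral.integral_of_le hc0,
    ← integral_Icc_eq_integral_Ioc, ← integral_Icc_eq_integral_Ioc]
  have i1 := integral_map (μ := μ) hVm (f := fun x => x)
    (measurable_id.aestronglyMeasurable)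
  have i2 := integral_map (μ := μ) hWm (f := fun x => x)
    (measurable_id.aestronglyMeasurable)
  rw [← i1, ← i2, hmap]


end Pool.Agent.LibXray
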