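import Pool.Agent.LibXray.Fixed

/-!
Shape of the fixed point and concavity of the two boundary functions.
-/

namespace Pool.Agent.LibXray

open Set MeasureTheory Filter Topology

/-- A weighted exponential of a concave function is concave if this holds for all its chords. -/
lemma concave_mul_exp {I : Set ℝ} (hI : Convex ℝ I) {M w : ℝ → ℝ} (hM : ∀ e ∈ I, 0 ≤ M e)
    (hw : ConcaveOn ℝ I w)
    (h : ∀ x ∈ I, ∀ y ∈ I, x < y →
      ConcaveOn ℝ I (fun e => M e * Real.exp ((w y - w x) / (y - x) * e))) :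
    ConcaveOn ℝ I (fun e => M e * Real.exp (w e)) := by
  apply LinearOrder.concaveOn_of_lt hI
  intro x hx y hy hxy s t hs ht hst
  have hz : s • x + t • y ∈ I := hI hx hy hs.le ht.le hst
  have h1 := hw.2 hx hy hs.le ht.le hst
  have h2 := (h x hx y hy hxy).2 hx hy hs.le ht.le hst
  simp only [smul_eq_mul] at h1 h2 hz ⊢
  set σ := (w y - w x) / (y - x) with hσ
  have hd : y - x ≠ 0 := by linarith
  have hσd : σ * (y - x) = w y - w x := by rw [hσ]; field_simp
  set z := s * x + t * y with hzdef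
  have e1 : s * w x + t * w y = (w x - σ * x) + σ * z := by
    have hs' : s = 1 - t := by linarith
    rw [hzdef, hs']; linear_combination (-t) * hσd
  have e2 : w y = (w x - σ * x) + σ * y := by linear_combination -hσd
  have k1 : Real.exp (w x) = Real.exp (w x - σ * x) * Real.exp (σ * x) := by
    rw [← Real.exp_add]; congr 1; ring
  have k2 : Real.exp (w y) = Real.exp (w x - σ * x) * Real.exp (σ * y) := by
    rw [← Real.exp_add, ← e2]
  have k3 : Real.exp (w x - σ * x) * Real.exp (σ * z) ≤ Real.exp (w z) := by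
    rw [← Real.exp_add]; exact Real.exp_le_exp.mpr (by linarith)
  calc s * (M x * Real.exp (w x)) + t * (M y * Real.exp (w y))
      = Real.exp (w x - σ * x) *
        (s * (M x * Real.exp (σ * x)) + t * (M y * Real.exp (σ * y))) := by
        rw [k1, k2]; ring
    _ ≤ Real.exp (w x - σ * x) * (M z * Real.exp (σ * z)) :=
        mul_le_mul_of_nonneg_left h2 (Real.exp_pos _).le
    _ = M z * (Real.exp (w x - σ * x) * Real.exp (σ * z)) := by ring
    _ ≤ M z * Real.exp (w z) := mul_le_mul_of_nonneg_left k3 (hM z hz)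

/-- Gluing concave functions with a common supporting line. -/
lemma concave_glue {a b d m : ℝ} {f : ℝ → ℝ} (h1 : ConcaveOn ℝ (Icc a b) f)
    (h2 : ConcaveOn ℝ (Icc b d) f) (hm : ∀ x ∈ Icc a d, f x ≤ f b + m * (x - b)) :
    ConcaveOn ℝ (Icc a d) f := by
  apply concaveOn_of_slope_anti_adjacent (convex_Icc a d)
  intro x y z hx hz hxy hyz
  rcases le_or_gt z b with hzb | hzb
  · exact h1.slope_anti_adjacent ⟨hx.1, by linarith⟩ ⟨hz.1, hzb⟩ hxy hyz
  rcases le_or_gt b x with hxb | hxb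
  · exact h2.slope_anti_adjacent ⟨hxb, hx.2⟩ ⟨by linarith, hz.2⟩ hxy hyz
  have fx := hm x hx
  have fz := hm z hz
  have fy := hm y ⟨by linarith [hx.1], by linarith [hz.2]⟩
  have hyx : 0 < y - x := by linarith
  have hzy : 0 < z - y := by linarith
  rcases lt_trichotomy y b with hyb | hyb | hyb
  · have hby : 0 < b - y := by linarith
    have k := h1.slope_anti_adjacent (x := x) (y := y) (z := b) ⟨hx.1, by linarith⟩
      ⟨by linarith [hx.1], le_rfl⟩ hxy hyb
    set S2 := (f b - f y) / (b - y) with hS2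
    have e2 : f b - f y = S2 * (b - y) := by rw [hS2]; field_simp
    have m2 : m ≤ S2 := by rw [hS2, le_div_iff₀ hby]; linarith
    refine le_trans ?_ k
    rw [div_le_iff₀ hzy]
    nlinarith
  · subst hyb
    have a1 : (f z - f y) / (z - y) ≤ m := by rw [div_le_iff₀ hzy]; linarith
    have a2 : m ≤ (f y - f x) / (y - x) := by rw [le_div_iff₀ hyx]; linarith
    exact a1.trans a2
  · have hby : 0 < y - b := by linarith
    have k := h2.slope_anti_adjacent (x := b) (y := y) (z := z) ⟨le_rfl, by linarith [hz.2]⟩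
      ⟨by linarith, hz.2⟩ hyb hyz
    set S4 := (f y - f b) / (y - b) with hS4
    have e4 : f y - f b = S4 * (y - b) := by rw [hS4]; field_simp
    have m4 : S4 ≤ m := by rw [hS4, div_le_iff₀ hby]; linarith
    refine le_trans k ?_
    rw [le_div_iff₀ hyx]
    nlinarith

/-- Supporting line of a concave function at an interior point. -/
lemma supgrad {a b d : ℝ} {f : ℝ → ℝ} (hf : ConcaveOn ℝ (Icc a d) f) (hb : b ∈ Ioo a d) :
    ∃ m, (∀ x ∈ Icc a d, f x ≤ f b + m * (x - b)) ∧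
      (∀ L, (∀ x ∈ Ico a b, L * (b - x) ≤ f b - f x) → L ≤ m) ∧
      (∀ x ∈ Ico a b, m * (b - x) ≤ f b - f x) := by
  set T : Set ℝ := (fun x => (f b - f x) / (b - x)) '' Ico a b with hT
  have hne : T.Nonempty := ⟨_, a, ⟨le_rfl, hb.1⟩, rfl⟩
  -- slopes to the right bound T from below
  have hright : ∀ z ∈ Ioc b d, ∀ x ∈ Ico a b, (f z - f b) / (z - b) ≤ (f b - f x) / (b - x) := by
    intro z hz x hx
    exact hf.slope_anti_adjacent ⟨hx.1, by linarith [hx.2, hb.2]⟩ ⟨by linarith [hb.1, hz.1], hz.2⟩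
      hx.2 hz.1
  have hbdd : BddBelow T := by
    refine ⟨(f d - f b) / (d - b), ?_⟩
    rintro _ ⟨x, hx, rfl⟩
    exact hright d ⟨hb.2, le_rfl⟩ x hx
  have hleft : ∀ x ∈ Ico a b, sInf T * (b - x) ≤ f b - f x := by
    intro x hx
    have h0 : 0 < b - x := by linarith [hx.2]
    have := csInf_le hbdd ⟨x, hx, rfl⟩
    rwa [le_div_iff₀ h0] at this
  refine ⟨sInf T, ?_, ?_, hleft⟩
  · intro x hx
    rcases lt_trichotomy x b with h | h | h
    · have := hleft x ⟨hx.1, h⟩; linarith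
    · subst h; simp
    · have h0 : 0 < x - b := by linarith
      have : (f x - f b) / (x - b) ≤ sInf T := by
        apply le_csInf hne
        rintro _ ⟨y, hy, rfl⟩
        exact hright x ⟨h, hx.2⟩ y hy
      rw [div_le_iff₀ h0] at this
      linarith
  · intro L hL
    apply le_csInf hne
    rintro _ ⟨x, hx, rfl⟩
    have h0 : 0 < b - x := by linarith [hx.2]
    simp only
    rw [le_div_iff₀ h0]
    exact hL x hx

/-- Multiplication by `1 - κ / B`. -/
lemma concave_mul_hyp {c B₀ κ : ℝ} {k : ℝ → ℝ} (hk : ConcaveOn ℝ (Icc 0 c) k) (hκ : 0 ≤ κ)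
    (hB : ∀ y ∈ Icc 0 c, 0 < B₀ + y) (hB1 : ∀ y ∈ Icc 0 c, κ ≤ B₀ + y)
    (hanti : AntitoneOn (fun y => k y / (B₀ + y)) (Icc 0 c)) :
    ConcaveOn ℝ (Icc 0 c) (fun y => k y * (1 - κ / (B₀ + y))) := by
  apply LinearOrder.concaveOn_of_lt (convex_Icc 0 c)
  intro x hx y hy hxy s t hs ht hst
  have hz : s • x + t • y ∈ Icc 0 c := (convex_Icc 0 c) hx hy hs.le ht.le hst
  have h1 := hk.2 hx hy hs.le ht.le hst
  simp only [smul_eq_mul] at h1 hz ⊢
  set z := s * x + t * y with hzdef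
  have bx := hB x hx
  have by' := hB y hy
  have bz := hB z hz
  have hr := hanti hx hy hxy.le
  simp only at hr
  set r1 := k x / (B₀ + x) with hr1
  set r2 := k y / (B₀ + y) with hr2
  have e1 : k x = r1 * (B₀ + x) := by rw [hr1]; field_simp
  have e2 : k y = r2 * (B₀ + y) := by rw [hr2]; field_simp
  have hbz : B₀ + z = s * (B₀ + x) + t * (B₀ + y) := by
    have hs' : s = 1 - t := by linarith
    rw [hzdef, hs']; ring
  have hfac : 0 ≤ 1 - κ / (B₀ + z) := by
    rw [sub_nonneg, div_le_one bz]; exact hB1 z hz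
  have e3 : k x * (1 - κ / (B₀ + x)) = k x - κ * r1 := by rw [hr1]; ring
  have e4 : k y * (1 - κ / (B₀ + y)) = k y - κ * r2 := by rw [hr2]; ring
  rw [e3, e4]
  refine le_trans ?_ (mul_le_mul_of_nonneg_right h1 hfac)
  have key : (s * k x + t * k y) / (B₀ + z) ≤ s * r1 + t * r2 := by
    rw [div_le_iff₀ bz, hbz, e1, e2]
    have hs' : s = 1 - t := by linarith
    have h2 : 0 ≤ s * t * (r1 - r2) * (y - x) :=
      mul_nonneg (mul_nonneg (mul_nonneg hs.le ht.le) (by linarith)) (by linarith)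
    rw [hs'] at h2 ⊢
    nlinarith
  have : (s * k x + t * k y) * (1 - κ / (B₀ + z))
      = (s * k x + t * k y) - κ * ((s * k x + t * k y) / (B₀ + z)) := by ring
  rw [this]
  have := mul_le_mul_of_nonneg_left key hκ
  linarith

variable {c s₀ S : ℝ} {χ F : ℝ → ℝ}

lemma Forc.neg_zero (hχ : Forc c s₀ S χ) : χ 0 < 0 := by
  by_contra h
  push Not at h
  have hc := hχ.hc
  have h0 : (0:ℝ) ∈ Icc 0 c := ⟨le_rfl, hc.le⟩
  have hχc : ContinuousOn χ (Icc 0 c) := continuousOn_of_lip hχ.lip'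
  have hI : IntervalIntegrable χ volume 0 c := by
    apply ContinuousOn.intervalIntegrable
    rw [uIcc_of_le hc.le]; exact hχc
  have h1 := intervalIntegral.integral_mono_on hc.le (f := fun e => s₀ * e) (g := χ)
    (by apply Continuous.intervalIntegrable; fun_prop) hI (fun e he => by
      have := hχ.inc 0 h0 e he he.1
      simp only [sub_zero] at this; linarith)
  rw [hχ.int0, intervalIntegral.integral_const_mul] at h1
  simp only [integral_id] at h1
  have : 0 < s₀ * ((c ^ 2 - 0 ^ 2) / 2) := by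
    have h2 : 0 < c ^ 2 := by positivity
    exact mul_pos hχ.hs (by linarith)
  linarith

/-- Data of a fixed point. -/
structure Fix (c S : ℝ) (χ F : ℝ → ℝ) : Prop where
  anti : AntitoneOn F (Icc 0 c)
  conc : ConcaveOn ℝ (Icc 0 c) F
  lip : ∀ x ∈ Icc 0 c, ∀ y ∈ Icc 0 c, |F x - F y| ≤ S * |x - y|
  fix : ∀ x ∈ Icc 0 c, Rr c (fun e => F (c - e) - χ e) x = F x

/-- Shape of a fixed point. -/
lemma Fix.shape (hχ : Forc c s₀ S χ) (hF : Fix c S χ F) :
    ∃ y₀ ∈ Icc 0 c, (∀ y ∈ Icc y₀ c, F y = F (c - y) - χ y) ∧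
      (∀ x ∈ Icc 0 y₀, ∀ y ∈ Icc 0 y₀, x ≤ y → F x - F y ≤ (S - s₀) * (y - x)) := by
  have hc := hχ.hc
  set V : ℝ → ℝ := fun e => F (c - e) - χ e with hV
  have hFc : ContinuousOn F (Icc 0 c) := continuousOn_of_lip hF.lip
  have hVc : ContinuousOn V (Icc 0 c) := by
    have h2 : ContinuousOn (fun e => F (c - e)) (Icc 0 c) := by
      apply hFc.comp (by fun_prop)
      intro e he; exact refl_mem he
    exact h2.sub (continuousOn_of_lip hχ.lip')
  have hVconc : ConcaveOn ℝ (Icc 0 c) V := (refl_concave hF.conc).sub hχ.conv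
  have m0 : (0:ℝ) ∈ Icc 0 c := ⟨le_rfl, hc.le⟩
  have mc : c ∈ Icc 0 c := ⟨hc.le, le_rfl⟩
  -- V c < V 0
  have hVlt : V c < V 0 := by
    by_contra h
    push Not at h
    have h1 := hF.fix c mc
    obtain ⟨a, ha, h2⟩ := Rr_exists hVc mc
    have ha0 : a = 0 := by have := ha.1; have := ha.2; linarith
    rw [h1, ha0, zero_add, min_eq_left h] at h2
    simp only [hV, sub_zero] at h2
    have := hχ.neg_zero
    linarith
  -- increasing slopes of V are at most S - s₀
  have hVslope : ∀ x ∈ Icc 0 c, ∀ y ∈ Icc 0 c, x ≤ y → V y - V x ≤ (S - s₀) * (y - x) := by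
    intro x hx y hy hxy
    have a := hχ.inc x hx y hy hxy
    have l := hF.lip _ (refl_mem hy) _ (refl_mem hx)
    have l' := (abs_le.mp l).2
    rw [abs_of_nonpos (by linarith : c - y - (c - x) ≤ 0)] at l'
    simp only [hV]
    nlinarith
  -- last point with V ≥ V 0
  set Q : Set ℝ := {y | y ∈ Icc 0 c ∧ V 0 ≤ V y} with hQ
  have hQcomp : IsCompact Q := by
    have : Q = Icc 0 c ∩ V ⁻¹' (Ici (V 0)) := by ext e; simp [hQ]
    rw [this]
    exact isCompact_Icc.of_isClosed_subset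
      (hVc.preimage_isClosed_of_isClosed isClosed_Icc isClosed_Ici) inter_subset_left
  have hQne : Q.Nonempty := ⟨0, m0, le_rfl⟩
  obtain ⟨y₀, hy₀, hmax⟩ := hQcomp.exists_isGreatest hQne
  have hQconv : Convex ℝ Q := hVconc.convex_ge (V 0)
  have hQord := hQconv.ordConnected
  have hin : ∀ y ∈ Icc 0 y₀, V 0 ≤ V y := by
    intro y hy
    have : y ∈ Q := hQord.out (⟨m0, le_rfl⟩ : (0:ℝ) ∈ Q) hy₀ hy
    exact this.2
  have hout : ∀ y ∈ Icc 0 c, y₀ < y → V y < V 0 := by
    intro y hy hlt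
    by_contra h
    push Not at h
    have := hmax (⟨hy, h⟩ : y ∈ Q)
    linarith
  have hy₀c : y₀ < c := by
    rcases lt_or_eq_of_le hy₀.1.2 with h | h
    · exact h
    · have := hy₀.2; rw [h] at this; linarith
  -- V y₀ = V 0
  have hVy₀ : V y₀ = V 0 := by
    apply le_antisymm _ hy₀.2
    have h1 : Tendsto V (𝓝[Icc 0 c] y₀) (𝓝 (V y₀)) := hVc y₀ hy₀.1
    have h2 : Tendsto V (𝓝[>] y₀) (𝓝 (V y₀)) := by
      apply h1.mono_left
      rw [nhdsWithin_le_iff]
      have : Ioo y₀ c ∈ 𝓝[>] y₀ := Ioo_mem_nhdsGT hy₀c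
      filter_upwards [this] with z hz
      exact ⟨by linarith [hy₀.1.1, hz.1], hz.2.le⟩
    apply le_of_tendsto h2
    have : Ioo y₀ c ∈ 𝓝[>] y₀ := Ioo_mem_nhdsGT hy₀c
    filter_upwards [this] with z hz
    exact (hout z ⟨by linarith [hy₀.1.1, hz.1], hz.2.le⟩ hz.1).le
  -- V is nonincreasing on [y₀, c]
  have hVanti : ∀ y ∈ Icc y₀ c, ∀ z ∈ Icc y₀ c, y ≤ z → V z ≤ V y := by
    intro y hy z hz hyz
    rcases eq_or_lt_of_le hyz with h | h
    · rw [h]
    rcases eq_or_lt_of_le hy.1 with h' | h'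
    · rw [← h', hVy₀]
      exact (hout z ⟨by linarith [hy₀.1.1, hz.1], hz.2⟩ (by linarith)).le
    · have yc : y ∈ Icc 0 c := ⟨by linarith [hy₀.1.1], hy.2⟩
      have zc : z ∈ Icc 0 c := ⟨by linarith [hy₀.1.1, hz.1], hz.2⟩
      have hlt := hout y yc h'
      have := hVconc.slope_anti_adjacent (x := 0) (y := y) (z := z) m0 zc
        (by linarith [hy₀.1.1]) h
      have hneg : (V y - V 0) / (y - 0) ≤ 0 :=
        div_nonpos_of_nonpos_of_nonneg (by linarith) (by linarith [yc.1])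
      have h3 := this.trans hneg
      rw [div_le_iff₀ (by linarith)] at h3
      linarith
  refine ⟨y₀, hy₀.1, ?_, ?_⟩
  · intro y hy
    have yc : y ∈ Icc 0 c := ⟨by linarith [hy₀.1.1, hy.1], hy.2⟩
    have hfix := hF.fix y yc
    apply le_antisymm
    · rw [← hfix]
      obtain ⟨a, ha, h1, h2⟩ := Rr_exists' hVc yc
      refine h2.trans ?_
      exact hVanti y hy (a + y) ⟨by linarith [ha.1, hy.1], by linarith [ha.2]⟩ (by linarith [ha.1])
    · rw [← hfix]
      have hle : V y ≤ V 0 := by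
        have := hVanti y₀ ⟨le_rfl, hy₀c.le⟩ y hy hy.1
        rw [hVy₀] at this; exact this
      exact le_Rr' hVc yc (a := 0) ⟨le_rfl, by linarith [hy.2]⟩ hle (by rw [zero_add])
  · intro x hx y hy hxy
    have xc : x ∈ Icc 0 c := ⟨hx.1, hx.2.trans hy₀.1.2⟩
    have yc : y ∈ Icc 0 c := ⟨hy.1, hy.2.trans hy₀.1.2⟩
    obtain ⟨a, ha, h1, h2⟩ := Rr_exists' hVc xc
    rw [hF.fix x xc] at h1 h2
    have hSs : 0 ≤ S - s₀ := by linarith [hχ.s_le]
    have goal : F x - (S - s₀) * (y - x) ≤ F y := by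
      rw [← hF.fix y yc]
      rcases le_total (y - x) a with hca | hca
      · have k := hVslope (a - (y - x)) ⟨by linarith, by linarith [ha.2, hx.1]⟩ a
          ⟨ha.1, by linarith [ha.2, hx.1]⟩ (by linarith)
        refine le_Rr' hVc yc (a := a - (y - x)) ⟨by linarith, by linarith [ha.2]⟩ ?_ ?_
        · have : (S - s₀) * (a - (a - (y - x))) = (S - s₀) * (y - x) := by ring
          linarith
        · have e : a - (y - x) + y = a + x := by ring
          rw [e]
          have : 0 ≤ (S - s₀) * (y - x) := mul_nonneg hSs (by linarith)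
          linarith
      · have k := hVslope 0 m0 a ⟨ha.1, by linarith [ha.2, hx.1]⟩ ha.1
        have k2 : (S - s₀) * (a - 0) ≤ (S - s₀) * (y - x) :=
          mul_le_mul_of_nonneg_left (by linarith) hSs
        refine le_Rr' hVc yc (a := 0) ⟨le_rfl, by linarith [yc.2]⟩ (by linarith) ?_
        rw [zero_add]
        have := hin y hy
        linarith
    linarith

/-- Concavity of `A * exp F`. -/
theorem K_concave (hχ : Forc c s₀ S χ) (hF : Fix c S χ F) {A : ℝ → ℝ}
    (hA : ∀ e ∈ Icc 0 c, 0 < A e)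
    (h1 : ∀ σ, -(S - s₀) ≤ σ → σ ≤ 0 → ConcaveOn ℝ (Icc 0 c) (fun e => A e * Real.exp (σ * e)))
    (h2 : ∀ σ, 0 ≤ σ → σ ≤ S →
      ConcaveOn ℝ (Icc 0 c) (fun e => (A e * Real.exp (-χ e)) * Real.exp (σ * e))) :
    ConcaveOn ℝ (Icc 0 c) (fun e => A e * Real.exp (F e)) := by
  obtain ⟨y₀, hy₀, hright, hleft⟩ := hF.shape hχ
  have sub1 : Icc 0 y₀ ⊆ Icc 0 c := Icc_subset_Icc le_rfl hy₀.2
  have sub2 : Icc y₀ c ⊆ Icc 0 c := Icc_subset_Icc hy₀.1 le_rfl
  -- left part
  have L : ConcaveOn ℝ (Icc 0 y₀) (fun e => A e * Real.exp (F e)) := by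
    apply concave_mul_exp (convex_Icc 0 y₀) (fun e he => (hA e (sub1 he)).le)
      (hF.conc.subset sub1 (convex_Icc 0 y₀))
    intro x hx y hy hxy
    apply (h1 _ ?_ ?_).subset sub1 (convex_Icc 0 y₀)
    · rw [le_div_iff₀ (by linarith)]
      have := hleft x hx y hy hxy.le
      linarith
    · apply div_nonpos_of_nonpos_of_nonneg _ (by linarith)
      have := hF.anti (sub1 hx) (sub1 hy) hxy.le
      linarith
  -- right part
  have R : ConcaveOn ℝ (Icc y₀ c) (fun e => A e * Real.exp (F e)) := by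
    have : ConcaveOn ℝ (Icc y₀ c) (fun e => (A e * Real.exp (-χ e)) * Real.exp (F (c - e))) := by
      apply concave_mul_exp (convex_Icc y₀ c)
        (fun e he => (mul_pos (hA e (sub2 he)) (Real.exp_pos _)).le)
        ((refl_concave hF.conc).subset sub2 (convex_Icc y₀ c))
      intro x hx y hy hxy
      apply (h2 _ ?_ ?_).subset sub2 (convex_Icc y₀ c)
      · apply div_nonneg _ (by linarith)
        have := hF.anti (refl_mem (sub2 hy)) (refl_mem (sub2 hx)) (by linarith)
        linarith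
      · rw [div_le_iff₀ (by linarith)]
        have := hF.lip _ (refl_mem (sub2 hy)) _ (refl_mem (sub2 hx))
        rw [abs_of_nonpos (by linarith : c - y - (c - x) ≤ 0)] at this
        have := (abs_le.mp this).2
        nlinarith
    refine this.congr ?_
    intro e he
    simp only
    rw [mul_assoc, ← Real.exp_add, hright e he]
    congr 2; ring
  rcases eq_or_lt_of_le hy₀.1 with h0 | h0
  · rw [← h0] at R; exact R
  rcases eq_or_lt_of_le hy₀.2 with hc' | hc'
  · rw [hc'] at L; exact L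
  -- supporting line
  obtain ⟨σ, hσ1, hσ2, hσ3⟩ := supgrad hF.conc (⟨h0, hc'⟩ : y₀ ∈ Ioo 0 c)
  have hσneg : σ ≤ 0 := by
    have a := hσ3 0 ⟨le_rfl, h0⟩
    have b := hF.anti (⟨le_rfl, hχ.hc.le⟩ : (0:ℝ) ∈ Icc 0 c) hy₀ h0.le
    by_contra hneg
    push Not at hneg
    have : 0 < σ * (y₀ - 0) := mul_pos hneg (by linarith)
    linarith
  have hσlow : -(S - s₀) ≤ σ := by
    apply hσ2
    intro x hx
    have := hleft x ⟨hx.1, hx.2.le⟩ y₀ ⟨h0.le, le_rfl⟩ hx.2.le
    linarith
  have hT : ConcaveOn ℝ (Icc 0 c) (fun e => Real.exp (F y₀ - σ * y₀) * (A e * Real.exp (σ * e))) := by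
    have := (h1 σ hσlow hσneg).smul (Real.exp_pos (F y₀ - σ * y₀)).le
    simpa [smul_eq_mul] using this
  obtain ⟨m, hm1, _, _⟩ := supgrad hT (⟨h0, hc'⟩ : y₀ ∈ Ioo 0 c)
  have heq : Real.exp (F y₀ - σ * y₀) * (A y₀ * Real.exp (σ * y₀)) = A y₀ * Real.exp (F y₀) := by
    have : Real.exp (F y₀) = Real.exp (F y₀ - σ * y₀) * Real.exp (σ * y₀) := by
      rw [← Real.exp_add]; congr 1; ring
    rw [this]; ring
  refine concave_glue L R (m := m) ?_
  intro x hx
  have k := hm1 x hx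
  rw [heq] at k
  refine le_trans ?_ k
  have e1 : Real.exp (F y₀ - σ * y₀) * (A x * Real.exp (σ * x))
      = A x * Real.exp (F y₀ + σ * (x - y₀)) := by
    have : Real.exp (F y₀ + σ * (x - y₀)) = Real.exp (F y₀ - σ * y₀) * Real.exp (σ * x) := by
      rw [← Real.exp_add]; congr 1; ring
    rw [this]; ring
  rw [e1]
  exact mul_le_mul_of_nonneg_left (Real.exp_le_exp.mpr (hσ1 x hx)) (hA x hx).le

end Pool.Agent.LibXray
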